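import Pool.Agent.TH305.LG.Whole

/-!
Particle paths (helper305): a solution in the whole space with finite energy and finite dissipation
is bounded, with its gradient, on compact time intervals.
-/

set_option autoImplicit false

open MeasureTheory Set Metric Filter Topology
open scoped ContDiff ENNReal NNReal

namespace Pool.Agent.TH305.LG

open H459R3.NS W221.NS Pool.Agent.TH305.DR Pool.Agent.TH305.LW Pool.Agent.W349.MF W335.MD
  W919.MH.MARK3

/-- The tail of the dissipation. -/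
lemma tail_small {T : ℝ} {u : ℝ → V → V}
    (hu : ContDiffOn ℝ ∞ (fun z : ℝ × V => u z.1 z.2) (Ioo 0 T ×ˢ univ)) {a b : ℝ} (ha : 0 ≤ a)
    (hb : b ≤ T) (hD : ∫⁻ τ in Ioo a b, ∫⁻ y, ENNReal.ofReal (gsq (u τ) y) ≠ ⊤) {η : ℝ≥0∞}
    (hη : 0 < η) : ∃ n : ℕ, ∫⁻ τ in Ioo a b, ∫⁻ y in {y : V | (n : ℝ) < ‖y‖},
      ENNReal.ofReal (gsq (u τ) y) < η := by
  have hgs : ContinuousOn (fun z : ℝ × V => gsq (u z.1) z.2) (Ioo 0 T ×ˢ univ) := gsq_cont hu
  obtain ⟨W, hW⟩ : ∃ W : ℕ → Set V, W = fun n : ℕ => {y : V | (n : ℝ) < ‖y‖} := ⟨_, rfl⟩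
  have hWm : ∀ n, MeasurableSet (W n) := by
    intro n
    rw [hW]
    exact (isOpen_lt continuous_const continuous_norm).measurableSet
  have hgen : ∀ O : Set V, MeasurableSet O →
      Measurable ((Ioo a b ×ˢ O).indicator fun z : ℝ × V => ENNReal.ofReal (gsq (u z.1) z.2)) ∧
      ∫⁻ z, (Ioo a b ×ˢ O).indicator (fun z : ℝ × V => ENNReal.ofReal (gsq (u z.1) z.2)) z
        = ∫⁻ τ in Ioo a b, ∫⁻ y in O, ENNReal.ofReal (gsq (u τ) y) := by
    intro O hO
    have hSsub : Ioo a b ×ˢ O ⊆ Ioo 0 T ×ˢ univ := by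
      rintro ⟨τ, y⟩ ⟨h1, _⟩
      exact ⟨⟨ha.trans_lt h1.1, h1.2.trans_le hb⟩, mem_univ _⟩
    have hm : Measurable ((Ioo a b ×ˢ O).indicator
        fun z : ℝ × V => ENNReal.ofReal (gsq (u z.1) z.2)) :=
      measurable_indicator (measurableSet_Ioo.prod hO) (hgs.mono hSsub)
    refine ⟨hm, ?_⟩
    rw [Measure.volume_eq_prod, lintegral_prod _ hm.aemeasurable,
      ← lintegral_indicator measurableSet_Ioo]
    refine lintegral_congr fun τ => ?_
    by_cases h : τ ∈ Ioo a b
    · rw [indicator_of_mem h, ← lintegral_indicator hO]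
      refine lintegral_congr fun y => ?_
      by_cases h2 : y ∈ O
      · rw [indicator_of_mem h2, indicator_of_mem (show (τ, y) ∈ Ioo a b ×ˢ O from ⟨h, h2⟩)]
      · rw [indicator_of_notMem h2,
          indicator_of_notMem (show (τ, y) ∉ Ioo a b ×ˢ O from fun h3 => h2 h3.2)]
    · rw [indicator_of_notMem h]
      have : ∀ y, (Ioo a b ×ˢ O).indicator
          (fun z : ℝ × V => ENNReal.ofReal (gsq (u z.1) z.2)) (τ, y) = 0 := fun y =>
        indicator_of_notMem (fun h3 => h h3.1) _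
      simp only [this, lintegral_zero]
  obtain ⟨hm0, hI0⟩ := hgen univ MeasurableSet.univ
  have hlim := tendsto_lintegral_of_dominated_convergence (μ := (volume : Measure (ℝ × V)))
    (F := fun n => (Ioo a b ×ˢ W n).indicator
      fun z : ℝ × V => ENNReal.ofReal (gsq (u z.1) z.2)) (f := fun _ => 0)
    ((Ioo a b ×ˢ (univ : Set V)).indicator fun z : ℝ × V => ENNReal.ofReal (gsq (u z.1) z.2))
    (fun n => (hgen (W n) (hWm n)).1)
    (fun n => Eventually.of_forall fun z => indicator_le_indicator_of_subset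
      (prod_mono subset_rfl (subset_univ _)) (fun _ => zero_le) z)
    (by
      rw [hI0]
      simpa using hD)
    (Eventually.of_forall fun z => by
      apply tendsto_const_nhds.congr'
      obtain ⟨N, hN⟩ := exists_nat_ge ‖z.2‖
      filter_upwards [eventually_ge_atTop N] with n hn
      rw [indicator_of_notMem]
      rintro ⟨-, h2⟩
      rw [hW] at h2
      have h3 : (n : ℝ) < ‖z.2‖ := h2
      have : (N : ℝ) ≤ n := by exact_mod_cast hn
      linarith)
  rw [lintegral_zero] at hlim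
  obtain ⟨n, hn⟩ := (hlim.eventually (gt_mem_nhds hη)).exists
  refine ⟨n, ?_⟩
  have h2 := (hgen (W n) (hWm n)).2
  rw [h2] at hn
  rw [hW] at hn
  exact hn

/-- A field with small local energy is small somewhere. -/
lemma small_pt {v : V → V} {E : ℝ} (hE : 0 ≤ E) (hi : Integrable (nsq v))
    (hb : ∫ x, nsq v x ≤ E ^ 2) (x : V) : ∃ y ∈ ball x 1, ‖v y‖ ≤ E + 1 := by
  by_contra hcon
  push Not at hcon
  have h1 : ∫ _ in ball x 1, (E + 1) ^ 2 ≤ ∫ y in ball x 1, nsq v y := by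
    apply setIntegral_mono_on (integrableOn_const (by simp [Real.volume_pi_ball]))
      hi.integrableOn measurableSet_ball
    intro y hy
    have h2 := hcon y hy
    have h3 : ‖v y‖ ^ 2 ≤ nsq v y := by
      obtain ⟨i, hi⟩ : ∃ i, ‖v y‖ = |v y i| := by
        obtain ⟨i, -, hi⟩ := Finset.exists_mem_eq_sup' (Finset.univ_nonempty (α := Fin 3))
          (fun i => ‖v y i‖₊)
        refine ⟨i, ?_⟩
        rw [← Real.norm_eq_abs, Pi.norm_def, ← coe_nnnorm, ← hi]
        congr 1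
        rw [Finset.sup'_eq_sup]
      rw [hi, sq_abs]
      unfold nsq
      exact Finset.single_le_sum (f := fun i => v y i ^ 2) (fun i _ => sq_nonneg _)
        (Finset.mem_univ i)
    refine le_trans ?_ h3
    have : 0 ≤ E + 1 := by linarith
    nlinarith
  have h4 : ∫ y in ball x 1, nsq v y ≤ ∫ y, nsq v y :=
    setIntegral_le_integral hi (Eventually.of_forall fun y => nsq_nonneg' v y)
  have h5 : ∫ _ in ball x 1, (E + 1) ^ 2 = 8 * (E + 1) ^ 2 := by
    rw [setIntegral_const, Measure.real, Real.volume_pi_ball _ one_pos]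
    norm_num
  nlinarith

/-- Bounds on a compact set. -/
lemma cpt_bdd {T : ℝ} {u : ℝ → V → V}
    (hu : ContDiffOn ℝ ∞ (fun z : ℝ × V => u z.1 z.2) (Ioo 0 T ×ˢ univ)) {a b : ℝ} (ha : 0 < a)
    (hb : b < T) {Q : Set V} (hQ : IsCompact Q) :
    ∃ M : ℝ, 0 ≤ M ∧ ∀ t ∈ Icc a b, ∀ x ∈ Q, ∀ i j, |pd j (fun y => u t y i) x| ≤ M := by
  have hK : IsCompact (Icc a b ×ˢ Q) := isCompact_Icc.prod hQ
  have hKs : Icc a b ×ˢ Q ⊆ Ioo 0 T ×ˢ univ := fun z hz =>
    ⟨⟨ha.trans_le hz.1.1, hz.1.2.trans_lt hb⟩, trivial⟩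
  have hc : ∀ i j : Fin 3, ContinuousOn (fun z : ℝ × V => pd j (fun y => u z.1 y i) z.2)
      (Icc a b ×ˢ Q) := by
    intro i j
    have h1 : ContDiffOn ℝ ∞ (fun z : ℝ × V => (fun t y => u t y i) z.1 z.2)
      (Ioo 0 T ×ˢ univ) := (contDiffOn_pi.1 hu) i
    exact (pd_js (f := fun t y => u t y i) h1 j).continuousOn.mono hKs
  have hG : ContinuousOn (fun z : ℝ × V => fun i j : Fin 3 => pd j (fun y => u z.1 y i) z.2)
      (Icc a b ×ˢ Q) := continuousOn_pi.2 fun i => continuousOn_pi.2 fun j => hc i j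
  obtain ⟨M, hM⟩ := hK.exists_bound_of_continuousOn hG
  refine ⟨max M 0, le_max_right _ _, fun t ht x hx i j => ?_⟩
  have h2 := hM (t, x) ⟨ht, hx⟩
  have h3 := norm_le_pi_norm (fun i j : Fin 3 => pd j (fun y => u t y i) x) i
  have h4 := norm_le_pi_norm (fun j : Fin 3 => pd j (fun y => u t y i) x) j
  rw [← Real.norm_eq_abs]
  exact h4.trans (h3.trans (h2.trans (le_max_left _ _)))

/-- A solution with finite energy and finite dissipation is bounded, with its gradient, on compact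
time intervals. -/
theorem bddW {T E : ℝ} {u : ℝ → V → V} {p : ℝ → V → ℝ} (hE : 0 ≤ E) (hS : OSol 1 T E univ u p)
    {a b a' b' : ℝ} (ha : 0 ≤ a) (hb : b ≤ T) (h1 : a < a') (h3 : b' < b)
    (hD : ∫⁻ τ in Ioo a b, ∫⁻ y, ENNReal.ofReal (gsq (u τ) y) ≠ ⊤) :
    ∃ M : ℝ, ∀ t ∈ Icc a' b', ∀ x, ‖u t x‖ ≤ M ∧ ∀ i j, |pd j (fun y => u t y i) x| ≤ M := by
  obtain ⟨C, hC, K, hK, H⟩ := fixT
  have hLS := osol_lsol hS
  obtain ⟨r, hr, hr2⟩ : ∃ r : ℝ, 0 < r ∧ r ^ 2 < a' - a := by
    have h0 : 0 < min 1 ((a' - a) / 2) := lt_min one_pos (by linarith)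
    refine ⟨min 1 ((a' - a) / 2), h0, ?_⟩
    have h5 := min_le_left 1 ((a' - a) / 2)
    have h6 := min_le_right 1 ((a' - a) / 2)
    nlinarith
  have hη : (0 : ℝ) < r / (1024 * (C + 1)) := by positivity
  obtain ⟨n, hn⟩ := tail_small hS.smooth_u ha hb hD (η := ENNReal.ofReal (r / (1024 * (C + 1))))
    (ENNReal.ofReal_pos.2 hη)
  obtain ⟨O, hO⟩ : ∃ O : Set V, O = {y : V | (n : ℝ) < ‖y‖} := ⟨_, rfl⟩
  rw [← hO] at hn
  have hOo : IsOpen O := by
    rw [hO]
    exact isOpen_lt continuous_const continuous_norm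
  have hLO : LSol T 0 E O u p :=
    { openO := hOo
      smooth_u := hLS.smooth_u
      smooth_p := hLS.smooth_p
      divfree := fun t ht x _ => hLS.divfree t ht x trivial
      momentum := fun t ht x _ i => hLS.momentum t ht x trivial i
      en_int := hLS.en_int
      en := hLS.en
      dv_int := hLS.dv_int
      dvb := hLS.dvb }
  obtain ⟨R, hR⟩ : ∃ R : ℝ, R = n + C * (r + E * √r) + r + 1 := ⟨_, rfl⟩
  obtain ⟨M₁, hM₁⟩ : ∃ M₁ : ℝ, M₁ = K 0 * (1 + r⁻¹ * E ^ 2) / r ^ 4 := ⟨_, rfl⟩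
  have hK0 := hK 0
  have hM₁0 : 0 ≤ M₁ := by rw [hM₁]; positivity
  have hfar : ∀ t ∈ Icc a' b', ∀ x, R ≤ ‖x‖ → ∀ i j, |pd j (fun y => u t y i) x| ≤ M₁ + 1 := by
    intro t ht x' hx' i j
    have htT : t ∈ Ioo 0 T := ⟨by linarith [ht.1], by linarith [ht.2]⟩
    obtain ⟨B, hBm, hBv, hB⟩ := H T 0 E O u p le_rfl hE hLO r t hr (by linarith [ht.1]) htT.2
      (by rw [mul_zero, zero_mul]; exact zero_le_one)
    have hBs : volume B < volume (ball x' (r / 16)) := by
      rw [Real.volume_pi_ball _ (by positivity), Fintype.card_fin]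
      refine lt_of_le_of_lt (b := ENNReal.ofReal (C * r ^ 2) *
        ENNReal.ofReal (r / (1024 * (C + 1)))) ?_ ?_
      · refine hBv.trans (mul_le_mul_right (le_trans ?_ hn.le) _)
        refine lintegral_mono_set (Ioo_subset_Ioo ?_ ?_)
        · linarith [ht.1]
        · linarith [ht.2]
      · rw [← ENNReal.ofReal_mul (by positivity)]
        rw [ENNReal.ofReal_lt_ofReal_iff (by positivity)]
        have e1 : C * r ^ 2 * (r / (1024 * (C + 1))) = r ^ 3 / 1024 * (C / (C + 1)) := by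
          field_simp
        have e2 : (2 * (r / 16)) ^ 3 = r ^ 3 / 512 := by ring
        rw [e1, e2]
        have h7 : C / (C + 1) ≤ 1 := by
          rw [div_le_one (by positivity)]
          linarith
        have h8 : 0 < r ^ 3 := by positivity
        have h9 : r ^ 3 / 1024 * (C / (C + 1)) ≤ r ^ 3 / 1024 * 1 := by gcongr
        linarith
    obtain ⟨x, hxb, hxB⟩ : ∃ x ∈ ball x' (r / 16), x ∉ B := by
      by_contra hcon
      push Not at hcon
      exact absurd (measure_mono (μ := volume) hcon) (not_le.2 hBs)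
    have hxO : ball x (C * (r + E * √r)) ⊆ O := by
      intro y hy
      rw [hO]
      show (n : ℝ) < ‖y‖
      rw [mem_ball] at hy hxb
      have d1 := dist_triangle x' x 0
      have d2 := dist_triangle x y 0
      rw [dist_zero_right, dist_zero_right] at d1 d2
      rw [dist_comm] at hxb hy
      linarith
    have h5 := (hB x hxB hxO x' (by rw [mem_ball, dist_comm]; exact hxb) 0).2
    have hA : A2 x (5 * r) (u t) ≤ E ^ 2 :=
      (setIntegral_le_integral (hLS.en_int t htT)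
        (Eventually.of_forall fun y => nsq_nonneg' (u t) y)).trans (hLS.en t htT)
    have h6 : pd j (fun y => u t y i) x' ^ 2 ≤ M₁ := by
      have h7 : pd j (fun y => u t y i) x' ^ 2 ≤ SV (0 + 1) (u t) x' := by
        have h8 : pd j (fun y => u t y i) x' ^ 2 ≤ SS (0 + 1) (fun y => u t y i) x' := by
          rw [SS_succ]
          exact Finset.single_le_sum (f := fun k => SS 0 (pd k fun y => u t y i) x')
            (fun k _ => SS_nonneg _ _ _) (Finset.mem_univ j)
        exact h8.trans (Finset.single_le_sum (f := fun k => SS (0 + 1) (fun y => u t y k) x')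
          (fun k _ => SS_nonneg _ _ _) (Finset.mem_univ i))
      rw [hM₁, le_div_iff₀ (by positivity)]
      calc pd j (fun y => u t y i) x' ^ 2 * r ^ 4
          ≤ SV (0 + 1) (u t) x' * r ^ 4 := by gcongr
        _ = r ^ (2 * 0 + 4) * SV (0 + 1) (u t) x' := by ring
        _ ≤ K 0 * (1 + r⁻¹ * A2 x (5 * r) (u t)) := h5
        _ ≤ K 0 * (1 + r⁻¹ * E ^ 2) := by gcongr
    rw [← sq_abs] at h6
    nlinarith [abs_nonneg (pd j (fun y => u t y i) x')]
  obtain ⟨M₂, hM₂0, hM₂⟩ := cpt_bdd hS.smooth_u (a := a') (b := b') (by linarith) (by linarith)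
    (isCompact_closedBall (0 : V) R)
  obtain ⟨M₃, hM₃⟩ : ∃ M₃ : ℝ, M₃ = M₁ + 1 + M₂ := ⟨_, rfl⟩
  have hall : ∀ t ∈ Icc a' b', ∀ x, ∀ i j, |pd j (fun y => u t y i) x| ≤ M₃ := by
    intro t ht x i j
    rcases le_total R ‖x‖ with h | h
    · have := hfar t ht x h i j
      linarith
    · have := hM₂ t ht x (by rw [mem_closedBall, dist_zero_right]; exact h) i j
      linarith
  refine ⟨E + 1 + 3 * M₃ + M₃, fun t ht x => ⟨?_, fun i j => (hall t ht x i j).trans (by
    linarith)⟩⟩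
  have htT : t ∈ Ioo 0 T := ⟨by linarith [ht.1], by linarith [ht.2]⟩
  have hL := lip_of_pd (show 0 ≤ M₃ by linarith)
    ((slice_smooth hS.smooth_u htT).differentiable (by norm_cast)) (hall t ht)
  obtain ⟨y, hy, hyE⟩ := small_pt hE (hLS.en_int t htT) (hLS.en t htT) x
  have h5 := hL.dist_le_mul x y
  rw [Real.coe_toNNReal _ (by linarith)] at h5
  rw [mem_ball, dist_comm] at hy
  have h6 : 3 * M₃ * dist x y ≤ 3 * M₃ * 1 := by
    apply mul_le_mul_of_nonneg_left hy.le
    linarith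
  have h7 := dist_triangle (u t x) (u t y) 0
  rw [dist_zero_right, dist_zero_right] at h7
  linarith

end Pool.Agent.TH305.LG
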