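import Pool.Agent.TH305.LG.FinL

/-!
Particle paths (helper305): final statements.
-/

set_option autoImplicit false

open MeasureTheory Set Metric Filter Topology
open scoped ContDiff ENNReal NNReal

namespace Pool.Agent.TH305.LG

open H459R3.NS W221.NS Pool.Agent.TH305.DR Pool.Agent.TH305.LW Pool.Agent.W349.MF

/-- The positions at the time `t₁` of the particles which, at some time `t` in `[t₁, T)`, come
within distance `r` of the set `badW K ν r (u t)`. -/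
def badP (K : ℕ → ℝ) (ν r : ℝ) (u : ℝ → V → V) (t₁ T : ℝ) : Set V :=
  {a | ∃ ξ : ℝ → V, ξ t₁ = a ∧ Pathline u t₁ T ξ ∧
    ∃ t ∈ Ico t₁ T, ∃ y ∈ badW K ν r (u t), dist y (ξ t) < r}

/-- The positions at the time `t₁` of the particles which, for every `r > 0`, come within distance
`r` of the set `badW K ν r (u t)` at some time `t` in `[t₁, T)`. -/
def badZ (K : ℕ → ℝ) (ν : ℝ) (u : ℝ → V → V) (t₁ T : ℝ) : Set V :=
  {a | ∃ ξ : ℝ → V, ξ t₁ = a ∧ Pathline u t₁ T ξ ∧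
    ∀ r : ℝ, 0 < r → ∃ t ∈ Ico t₁ T, ∃ y ∈ badW K ν r (u t), dist y (ξ t) < r}

lemma dl_smooth {T : ℝ} (l : List (Fin 3)) : ∀ f : ℝ → V → ℝ,
    ContDiffOn ℝ ∞ (fun z : ℝ × V => f z.1 z.2) (Ioo 0 T ×ˢ univ) →
    ContDiffOn ℝ ∞ (fun z : ℝ × V => dl l (f z.1) z.2) (Ioo 0 T ×ˢ univ) := by
  induction l with
  | nil => exact fun f hf => hf
  | cons i l ih =>
    intro f hf
    exact ih (fun t => pd i (f t)) (pd_js hf i)

lemma badP_sub {T : ℝ} {u : ℝ → V → V}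
    (hu : ContDiffOn ℝ ∞ (fun z : ℝ × V => u z.1 z.2) (Ioo 0 T ×ˢ univ)) {K : ℕ → ℝ} {ν r t₁ : ℝ}
    (h0 : 0 < t₁) (h1 : t₁ < T) : badP K ν r u t₁ T ⊆ badL K ν r u t₁ T := by
  rintro a ⟨ξ, hξa, hξ, t, ht, y, hyb, hy⟩
  rcases eq_or_lt_of_le ht.1 with h | h
  · obtain ⟨l, i, j, hlt⟩ := hyb
    rw [← h] at hlt hy
    have hvo : ContDiffOn ℝ ∞ (fun z : ℝ × V => vo (u z.1) i j z.2) (Ioo 0 T ×ˢ univ) := by
      have hc : ∀ k : Fin 3, ContDiffOn ℝ ∞ (fun z : ℝ × V => (fun t y => u t y k) z.1 z.2)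
          (Ioo 0 T ×ˢ univ) := fun k => (contDiffOn_pi.1 hu) k
      exact (pd_js (f := fun t y => u t y j) (hc j) i).sub
        (pd_js (f := fun t y => u t y i) (hc i) j)
    have hd := dl_smooth l (fun t => vo (u t) i j) hvo
    have hcont : ContinuousAt (fun t => |dl l (vo (u t) i j) y|) t₁ := by
      have h3 : ContinuousOn (fun t : ℝ => dl l (vo (u t) i j) y) (Ioo 0 T) :=
        hd.continuousOn.comp (f := fun t : ℝ => (t, y)) (by fun_prop)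
          (fun t ht => ⟨ht, mem_univ _⟩)
      exact (h3.continuousAt (Ioo_mem_nhds h0 h1)).abs
    have e1 : ∀ᶠ τ in 𝓝[Ioo t₁ T] t₁,
        K l.length * ν / r ^ (l.length + 2) < |dl l (vo (u τ) i j) y| :=
      nhdsWithin_le_nhds (hcont.eventually (lt_mem_nhds hlt))
    have e2 : ∀ᶠ τ in 𝓝[Ioo t₁ T] t₁, dist y (ξ τ) < r := by
      have h3 : Tendsto ξ (𝓝[Ioo t₁ T] t₁) (𝓝 (ξ t₁)) :=
        (hξ.cont t₁ ⟨le_rfl, h1⟩).mono_left (nhdsWithin_mono _ Ioo_subset_Ico_self)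
      exact (tendsto_const_nhds.dist h3).eventually (gt_mem_nhds hy)
    have hne : (𝓝[Ioo t₁ T] t₁).NeBot := by
      rw [nhdsWithin_Ioo_eq_nhdsGT h1]
      infer_instance
    obtain ⟨τ, ⟨g1, g2⟩, g3⟩ := ((e1.and e2).and self_mem_nhdsWithin).exists
    exact ⟨ξ, hξa, hξ, τ, g3, y, by rw [mem_ball]; exact g2, l, i, j, g1⟩
  · exact ⟨ξ, hξa, hξ, t, ⟨h, ht.2⟩, y, by rw [mem_ball]; exact hy, hyb⟩

lemma null_of {N : Set V} {S : ℝ → Set V} {c r₀ : ℝ} {D : ℝ≥0∞} (hD : D ≠ ⊤) (hr₀ : 0 < r₀)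
    (hN : ∀ r, 0 < r → N ⊆ S r)
    (hS : ∀ r, 0 < r → r < r₀ → volume (S r) ≤ ENNReal.ofReal (c * r ^ 2) * D) :
    volume N = 0 := by
  have h1 : Tendsto (fun r : ℝ => ENNReal.ofReal (c * r ^ 2) * D) (𝓝[Ioo 0 r₀] 0) (𝓝 0) := by
    have h2 : Tendsto (fun r : ℝ => ENNReal.ofReal (c * r ^ 2)) (𝓝[Ioo 0 r₀] 0) (𝓝 0) := by
      have h3 : ContinuousAt (fun r : ℝ => ENNReal.ofReal (c * r ^ 2)) 0 :=
        ENNReal.continuous_ofReal.continuousAt.comp (by fun_prop)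
      have h4 := h3.tendsto
      simp only [ne_eq, OfNat.ofNat_ne_zero, not_false_eq_true, zero_pow, mul_zero,
        ENNReal.ofReal_zero] at h4
      exact h4.mono_left nhdsWithin_le_nhds
    have h5 := ENNReal.Tendsto.mul_const (b := D) h2 (Or.inr hD)
    rwa [zero_mul] at h5
  have hne : (𝓝[Ioo 0 r₀] (0 : ℝ)).NeBot := by
    rw [nhdsWithin_Ioo_eq_nhdsGT hr₀]
    infer_instance
  exact le_antisymm (ge_of_tendsto h1 (eventually_nhdsWithin_of_forall fun r hr =>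
    (measure_mono (hN r hr.1)).trans (hS r hr.1 hr.2))) zero_le

lemma badZ_sub {K : ℕ → ℝ} {ν : ℝ} {u : ℝ → V → V} {t₁ T : ℝ} {r : ℝ} (hr : 0 < r) :
    badZ K ν u t₁ T ⊆ badP K ν r u t₁ T := by
  rintro a ⟨ξ, h1, h2, h3⟩
  exact ⟨ξ, h1, h2, h3 r hr⟩

lemma badW_mono_K {K K' : ℕ → ℝ} (h : ∀ n, K n ≤ K' n) {ν r : ℝ} (hν : 0 < ν) (hr : 0 < r)
    (v : V → V) : badW K' ν r v ⊆ badW K ν r v := by
  rintro x ⟨l, i, j, hlt⟩
  refine ⟨l, i, j, lt_of_le_of_lt ?_ hlt⟩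
  have := h l.length
  gcongr

lemma badV_mono_K {K K' : ℕ → ℝ} (h : ∀ n, K n ≤ K' n) {ν r : ℝ} (hν : 0 < ν) (hr : 0 < r)
    (v : V → V) : badV K' ν r v ⊆ badV K ν r v := by
  rintro x ⟨l, hl, i, hlt⟩
  refine ⟨l, hl, i, lt_of_le_of_lt ?_ hlt⟩
  have := h l.length
  gcongr

lemma badP_mono_K {K K' : ℕ → ℝ} (h : ∀ n, K n ≤ K' n) {ν r : ℝ} (hν : 0 < ν) (hr : 0 < r)
    (u : ℝ → V → V) (t₁ T : ℝ) : badP K' ν r u t₁ T ⊆ badP K ν r u t₁ T := by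
  rintro a ⟨ξ, h1, h2, t, ht, y, hy, hd⟩
  exact ⟨ξ, h1, h2, t, ht, y, badW_mono_K h hν hr _ hy, hd⟩

end Pool.Agent.TH305.LG
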