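import Pool.Agent.TH305.LG.Fin4

/-!
Particle paths (helper305): the combined statement.
-/

set_option autoImplicit false

open MeasureTheory Set Metric Filter Topology
open scoped ContDiff ENNReal NNReal

namespace Pool.Agent.TH305.LG

open H459R3.NS W221.NS Pool.Agent.TH305.DR Pool.Agent.TH305.LW Pool.Agent.W349.MF

lemma small_rad {C ν t₁ e : ℝ} (hC : 0 < C) (hν : 0 < ν) (h0 : 0 < t₁) (he : 0 ≤ e) :
    ∃ r₀ : ℝ, 0 < r₀ ∧ ∀ r, 0 < r → r < r₀ → 1024 * r ^ 2 / ν < t₁ ∧ C * (1 + e) * r ≤ 1 := by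
  obtain ⟨m, hm⟩ : ∃ m, m = min 1 (min (ν * t₁ / 1024) (1 / (C * (1 + e)))) := ⟨_, rfl⟩
  have hm0 : 0 < m := by
    rw [hm]
    exact lt_min one_pos (lt_min (by positivity) (by positivity))
  have m1 : m ≤ 1 := by rw [hm]; exact min_le_left _ _
  have m2 : m ≤ ν * t₁ / 1024 := by
    rw [hm]; exact (min_le_right _ _).trans (min_le_left _ _)
  have m3 : m ≤ 1 / (C * (1 + e)) := by
    rw [hm]; exact (min_le_right _ _).trans (min_le_right _ _)
  refine ⟨m, hm0, fun r hr hrm => ⟨?_, ?_⟩⟩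
  · rw [div_lt_iff₀ hν]
    have h1 : r ^ 2 < m := by nlinarith
    linarith
  · have h1 : r ≤ 1 / (C * (1 + e)) := hrm.le.trans m3
    rw [le_div_iff₀ (by positivity)] at h1
    linarith

/-- The combined statement. -/
theorem allT : ∃ C : ℝ, 0 < C ∧ ∃ K : ℕ → ℝ, (∀ n, 0 < K n) ∧
    -- solutions in the whole space
    (∀ (ν T E : ℝ) (u : ℝ → V → V) (p : ℝ → V → ℝ), 0 < ν → 0 ≤ E → OSol ν T E univ u p →
      (∀ r t₁ : ℝ, 0 < r → 1024 * r ^ 2 / ν < t₁ → t₁ < T →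
        volume (badP K ν r u t₁ T) ≤ ENNReal.ofReal (C / ν * r ^ 2) *
          ∫⁻ t in Ioo (t₁ - 1024 * r ^ 2 / ν) T, ∫⁻ y, ENNReal.ofReal (gsq (u t) y)) ∧
      (∫⁻ t in Ioo 0 T, ∫⁻ y, ENNReal.ofReal (gsq (u t) y) ≠ ⊤ →
        ∀ t₁ ∈ Ioo 0 T, volume (badZ K ν u t₁ T) = 0) ∧
      (∀ r s : ℝ, 0 < r → 256 * r ^ 2 / ν < s → s < T →
        volume (thickening r (badW K ν r (u s))) ≤ ENNReal.ofReal (C / ν * r ^ 2) *
          ∫⁻ t in Ioo (s - 256 * r ^ 2 / ν) s, ∫⁻ y, ENNReal.ofReal (gsq (u t) y) ∧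
        volume (thickening r (badV K ν r (u s))) ≤ ENNReal.ofReal (C * (E * r / ν) ^ 2)
          + ENNReal.ofReal (C / ν * r ^ 2) *
            ∫⁻ t in Ioo (s - 256 * r ^ 2 / ν) s, ∫⁻ y, ENNReal.ofReal (gsq (u t) y)) ∧
      (∫⁻ t in Ioo 0 T, ∫⁻ y, ENNReal.ofReal (gsq (u t) y) ≠ ⊤ →
        ∀ (n : ℕ) (s₀ ε : ℝ), 0 < s₀ → 0 < ε → ∃ L : ℝ, 0 < L ∧ ∀ a : ℝ, L ≤ a →
          ∀ s ∈ Ioo s₀ T, volume (Big n a (u s))
            ≤ ENNReal.ofReal (ε * a ^ (-(2 / (n + 2) : ℝ))))) ∧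
    -- periodic solutions
    ∀ (ν T : ℝ) (u : ℝ → V → V) (p : ℝ → V → ℝ), 0 < ν → IsSol ν T u p →
      (∀ r t₁ : ℝ, 0 < r → C * (1 + energy (u 0) / ν ^ 2) * r ≤ 1 → 1024 * r ^ 2 / ν < t₁ →
        t₁ < T → volume (badP K ν r u t₁ T ∩ cube) ≤ ENNReal.ofReal (C / ν * r ^ 2 *
          ∫ t in Ioo (t₁ - 1024 * r ^ 2 / ν) T, enstrophy (u t))) ∧
      (∀ t₁ ∈ Ioo 0 T, volume (badZ K ν u t₁ T ∩ cube) = 0) ∧
      (∀ r s : ℝ, 0 < r → C * (1 + energy (u 0) / ν ^ 2) * r ≤ 1 → 256 * r ^ 2 / ν < s → s < T →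
        volume (thickening r (badW K ν r (u s) ∩ cube)) ≤ ENNReal.ofReal (C / ν * r ^ 2 *
          ∫ t in Ioo (s - 256 * r ^ 2 / ν) s, enstrophy (u t)) ∧
        volume (thickening r (badV K ν r (u s) ∩ cube)) ≤
          ENNReal.ofReal (C * energy (u 0) * (r / ν) ^ 2)
          + ENNReal.ofReal (C / ν * r ^ 2 *
            ∫ t in Ioo (s - 256 * r ^ 2 / ν) s, enstrophy (u t))) ∧
      ∀ (n : ℕ) (s₀ ε : ℝ), 0 < s₀ → 0 < ε → ∃ L : ℝ, 0 < L ∧ ∀ a : ℝ, L ≤ a →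
        ∀ s ∈ Ioo s₀ T, volume (Big n a (u s) ∩ cube)
          ≤ ENNReal.ofReal (ε * a ^ (-(2 / (n + 2) : ℝ))) := by
  obtain ⟨C₁, hC₁, K₁, hK₁, F1, F2, -⟩ := Pool.Agent.TH305.DR.final
  obtain ⟨C₂, hC₂, K₂, hK₂, G2⟩ := wholeL
  obtain ⟨C₃, hC₃, K₃, hK₃, G3⟩ := perL
  have hKc : ∀ {K : ℕ → ℝ}, (∀ n, 0 < K n) → ∀ n, 0 < Kc K n := fun {K} h n => by
    have := h n
    have := h (n - 1)
    unfold Kc
    positivity
  have k1 : ∀ n, K₁ n ≤ K₁ n + Kc K₂ n + Kc K₃ n := fun n => by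
    have := hKc hK₂ n
    have := hKc hK₃ n
    linarith
  have k2 : ∀ n, Kc K₂ n ≤ K₁ n + Kc K₂ n + Kc K₃ n := fun n => by
    have := hK₁ n
    have := hKc hK₃ n
    linarith
  have k3 : ∀ n, Kc K₃ n ≤ K₁ n + Kc K₂ n + Kc K₃ n := fun n => by
    have := hK₁ n
    have := hKc hK₂ n
    linarith
  obtain ⟨K, hK⟩ : ∃ K : ℕ → ℝ, K = fun n => K₁ n + Kc K₂ n + Kc K₃ n := ⟨_, rfl⟩
  have k1' : ∀ n, K₁ n ≤ K n := by rw [hK]; exact k1
  have k2' : ∀ n, Kc K₂ n ≤ K n := by rw [hK]; exact k2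
  have k3' : ∀ n, Kc K₃ n ≤ K n := by rw [hK]; exact k3
  obtain ⟨C, hC⟩ : ∃ C, C = C₁ + C₂ + C₃ := ⟨_, rfl⟩
  have c1 : C₁ ≤ C := by linarith
  have c2 : C₂ ≤ C := by linarith
  have c3 : C₃ ≤ C := by linarith
  have hC0 : 0 < C := by linarith
  refine ⟨C, hC0, K, fun n => (hK₁ n).trans_le (k1' n), ?_, ?_⟩
  · intro ν T E u p hν hE hS
    have A1 : ∀ r t₁ : ℝ, 0 < r → 1024 * r ^ 2 / ν < t₁ → t₁ < T →
        volume (badP K ν r u t₁ T) ≤ ENNReal.ofReal (C / ν * r ^ 2) *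
          ∫⁻ t in Ioo (t₁ - 1024 * r ^ 2 / ν) T, ∫⁻ y, ENNReal.ofReal (gsq (u t) y) := by
      intro r t₁ hr h1 h2
      have h0 : 0 < t₁ := lt_trans (by positivity) h1
      refine (measure_mono ((badP_mono_K k2' hν hr u t₁ T).trans
        (badP_sub hS.smooth_u h0 h2))).trans ?_
      refine (G2 ν T E u p hν hE hS r t₁ hr h1 h2).trans
        (mul_le_mul_left (ENNReal.ofReal_le_ofReal ?_) _)
      gcongr
    obtain ⟨f1, f2⟩ := F1 ν T E u p hν hE hS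
    refine ⟨A1, ?_, ?_, f2⟩
    · intro hD t₁ ht₁
      obtain ⟨r₀, hr₀, hr₀'⟩ := small_rad hC0 hν ht₁.1 (le_refl (0 : ℝ))
      refine null_of (S := fun r => badP K ν r u t₁ T) (c := C / ν) hD hr₀
        (fun r hr => badZ_sub hr) (fun r hr hr' => ?_)
      obtain ⟨q1, -⟩ := hr₀' r hr hr'
      refine (A1 r t₁ hr q1 ht₁.2).trans (mul_le_mul_right (lintegral_mono_set
        (Ioo_subset_Ioo (by linarith) le_rfl)) _)
    · intro r s hr h1 h2
      obtain ⟨g1, g2⟩ := f1 r s hr h1 h2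
      constructor
      · refine (measure_mono (thickening_subset_of_subset r (badW_mono_K k1' hν hr _))).trans
          (g1.trans (mul_le_mul_left (ENNReal.ofReal_le_ofReal ?_) _))
        gcongr
      · refine (measure_mono (thickening_subset_of_subset r (badV_mono_K k1' hν hr _))).trans
          (g2.trans (add_le_add (ENNReal.ofReal_le_ofReal ?_)
            (mul_le_mul_left (ENNReal.ofReal_le_ofReal ?_) _)))
        · gcongr
        · gcongr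
  · intro ν T u p hν hS
    have he0 : 0 ≤ energy (u 0) := Finset.sum_nonneg fun i _ => integral_nonneg fun x => sq_nonneg _
    have hsm : ∀ {C' r : ℝ}, C' ≤ C → 0 < r → C * (1 + energy (u 0) / ν ^ 2) * r ≤ 1 →
        C' * (1 + energy (u 0) / ν ^ 2) * r ≤ 1 := by
      intro C' r h1 hr h2
      refine le_trans ?_ h2
      gcongr
    have hsu : ContDiffOn ℝ ∞ (fun z : ℝ × V => u z.1 z.2) (Ioo 0 T ×ˢ univ) :=
      hS.smooth_u.mono (prod_mono Ioo_subset_Ico_self subset_rfl)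
    have hi0 : ∀ a b : ℝ, 0 ≤ ∫ t in Ioo a b, enstrophy (u t) := fun a b =>
      integral_nonneg fun t => W221.NS.enstrophy_nonneg _
    have A1 : ∀ r t₁ : ℝ, 0 < r → C * (1 + energy (u 0) / ν ^ 2) * r ≤ 1 →
        1024 * r ^ 2 / ν < t₁ → t₁ < T →
        volume (badP K ν r u t₁ T ∩ cube) ≤ ENNReal.ofReal (C / ν * r ^ 2 *
          ∫ t in Ioo (t₁ - 1024 * r ^ 2 / ν) T, enstrophy (u t)) := by
      intro r t₁ hr hr1 h1 h2
      have h0 : 0 < t₁ := lt_trans (by positivity) h1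
      refine (measure_mono (inter_subset_inter_left cube
        ((badP_mono_K k3' hν hr u t₁ T).trans (badP_sub hsu h0 h2)))).trans ?_
      refine (G3 ν T u p hν hS r t₁ hr (hsm c3 hr hr1) h1 h2).trans
        (ENNReal.ofReal_le_ofReal ?_)
      have := hi0 (t₁ - 1024 * r ^ 2 / ν) T
      gcongr
    obtain ⟨f1, f2⟩ := F2 ν T u p hν hS
    refine ⟨A1, ?_, ?_, f2⟩
    · intro t₁ ht₁
      have hT : 0 < T := ht₁.1.trans ht₁.2
      obtain ⟨r₀, hr₀, hr₀'⟩ := small_rad hC0 hν ht₁.1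
        (show 0 ≤ energy (u 0) / ν ^ 2 by positivity)
      refine null_of (S := fun r => badP K ν r u t₁ T ∩ cube) (c := C / ν)
        (D := ENNReal.ofReal (∫ t in Ioo 0 T, enstrophy (u t))) ENNReal.ofReal_ne_top hr₀
        (fun r hr => inter_subset_inter_left _ (badZ_sub hr)) (fun r hr hr' => ?_)
      obtain ⟨q1, q2⟩ := hr₀' r hr hr'
      refine (A1 r t₁ hr q2 q1 ht₁.2).trans ?_
      rw [← ENNReal.ofReal_mul (by positivity)]
      apply ENNReal.ofReal_le_ofReal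
      apply mul_le_mul_of_nonneg_left _ (by positivity)
      exact setIntegral_mono_set (W221.NS.B.p_enst ν T u p hν hT hS)
        (Eventually.of_forall fun t => W221.NS.enstrophy_nonneg _)
        (Ioo_subset_Ioo (by linarith) le_rfl).eventuallyLE
    · intro r s hr hr1 h1 h2
      obtain ⟨g1, g2⟩ := f1 r s hr (hsm c1 hr hr1) h1 h2
      have := hi0 (s - 256 * r ^ 2 / ν) s
      constructor
      · refine (measure_mono (thickening_subset_of_subset r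
          (inter_subset_inter_left _ (badW_mono_K k1' hν hr _)))).trans
          (g1.trans (ENNReal.ofReal_le_ofReal ?_))
        gcongr
      · refine (measure_mono (thickening_subset_of_subset r
          (inter_subset_inter_left _ (badV_mono_K k1' hν hr _)))).trans
          (g2.trans (add_le_add (ENNReal.ofReal_le_ofReal ?_) (ENNReal.ofReal_le_ofReal ?_)))
        · gcongr
        · gcongr

end Pool.Agent.TH305.LG
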