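import Pool.Agent.TH305.LG.Peri
import Pool.Agent.TH305.LG.Bdd

/-!
Particle paths (helper305): all viscosities, paths up to the final time.
-/

set_option autoImplicit false

open MeasureTheory Set Metric Filter Topology
open scoped ContDiff ENNReal NNReal

namespace Pool.Agent.TH305.LG

open H459R3.NS W221.NS Pool.Agent.TH305.DR Pool.Agent.TH305.LW Pool.Agent.W349.MF

/-- `ξ` is the path of a particle carried by the velocity field `u`, for the times in `[t₁, T)`: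
`ξ'(t) = u(t, ξ(t))`. -/
structure Pathline (u : ℝ → V → V) (t₁ T : ℝ) (ξ : ℝ → V) : Prop where
  cont : ContinuousOn ξ (Ico t₁ T)
  ode : ∀ t ∈ Ioo t₁ T, HasDerivAt ξ (u t (ξ t)) t

/-- The positions at the time `t₁` of the particles which, at some time `t` in `(t₁, T)`, come
within distance `r` of the set `badW K ν r (u t)`. -/
def badL (K : ℕ → ℝ) (ν r : ℝ) (u : ℝ → V → V) (t₁ T : ℝ) : Set V :=
  {a | ∃ ξ : ℝ → V, ξ t₁ = a ∧ Pathline u t₁ T ξ ∧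
    ∃ t ∈ Ioo t₁ T, ∃ y ∈ ball (ξ t) r, y ∈ badW K ν r (u t)}

lemma est_vo1 {K : ℕ → ℝ} (hK : ∀ n, 0 < K n) {ν r : ℝ} (hν : 0 < ν) (hr : 0 < r) {v : V → V}
    {y : V} (l : List (Fin 3)) (i j : Fin 3)
    (h : r ^ (2 * l.length + 4) * DR.ST l.length (fun x => ν⁻¹ • v x) y ≤ K l.length) :
    |dl l (vo v i j) y| ≤ Kc K l.length * ν / r ^ (l.length + 2) := by
  have k1 := hK l.length
  have k2 := hK (l.length - 1)
  refine sq_to_abs hr hν k1.le (by unfold Kc; linarith) ?_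
  rw [← pow_aux]
  rw [ST_smul] at h
  have e : ν⁻¹ ^ 2 * ν ^ 2 = 1 := by field_simp
  have hν2 : 0 ≤ ν ^ 2 := by positivity
  have h3 := mul_le_mul_of_nonneg_right h hν2
  have h4 : r ^ (2 * l.length + 4) * DR.ST l.length v y ≤ K l.length * ν ^ 2 := by
    calc r ^ (2 * l.length + 4) * DR.ST l.length v y
        = r ^ (2 * l.length + 4) * ((ν⁻¹ ^ 2 * ν ^ 2) * DR.ST l.length v y) := by
          rw [e, one_mul]
      _ = r ^ (2 * l.length + 4) * (ν⁻¹ ^ 2 * DR.ST l.length v y) * ν ^ 2 := by ring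
      _ ≤ K l.length * ν ^ 2 := h3
  refine le_trans ?_ h4
  apply mul_le_mul_of_nonneg_left _ (by positivity)
  refine (SS_foldl l (vo v i j) y).trans ?_
  exact Finset.single_le_sum (f := fun q : Fin 3 × Fin 3 => SS l.length (Om q.1 q.2 v) y)
    (fun q _ => SS_nonneg _ _ _) (Finset.mem_univ (i, j))

/-- Scaling of the set of labels. -/
lemma lab_scale {K : ℕ → ℝ} (hK : ∀ n, 0 < K n) {ν r : ℝ} (hν : 0 < ν) (hr : 0 < r)
    {u : ℝ → V → V} {t₁ t₂ T : ℝ} (h2 : t₂ < T) {a : V} {ξ : ℝ → V} (hξa : ξ t₁ = a)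
    (hξ : Pathline u t₁ T ξ) {t : ℝ} (ht : t ∈ Ioc t₁ t₂) {y : V} (hy : y ∈ ball (ξ t) r)
    (hyb : y ∈ badW (Kc K) ν r (u t)) :
    a ∈ Lab K (32 * r) (fun t x => ν⁻¹ • u (t / ν) x) (ν * t₁) (ν * t₂) := by
  have hKc : ∀ n, 0 < Kc K n := fun n => by
    have := hK n
    have := hK (n - 1)
    unfold Kc
    positivity
  have hdiv : ∀ τ, τ / ν * ν = τ := fun τ => by field_simp
  refine ⟨fun τ => ξ (τ / ν), ?_, ⟨?_, ?_⟩, ν * t, ?_, y, ?_, ?_⟩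
  · show ξ (ν * t₁ / ν) = a
    rw [mul_div_cancel_left₀ _ hν.ne', hξa]
  · refine hξ.cont.comp (by fun_prop) fun τ hτ => ?_
    constructor
    · rw [le_div_iff₀ hν]
      linarith [hτ.1]
    · rw [div_lt_iff₀ hν]
      nlinarith [hτ.2]
  · intro τ hτ
    have h3 : τ / ν ∈ Ioo t₁ T := by
      constructor
      · rw [lt_div_iff₀ hν]
        linarith [hτ.1]
      · rw [div_lt_iff₀ hν]
        nlinarith [hτ.2]
    have h4 : HasDerivAt (fun t : ℝ => t / ν) ν⁻¹ τ := by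
      simpa [one_div] using (hasDerivAt_id τ).div_const ν
    exact (hξ.ode _ h3).scomp τ h4
  · exact ⟨mul_lt_mul_of_pos_left ht.1 hν, mul_le_mul_of_nonneg_left ht.2 hν.le⟩
  · show y ∈ ball (ξ (ν * t / ν)) (32 * r / 32)
    rw [mul_div_cancel_left₀ _ hν.ne', mul_div_cancel_left₀ _ (by norm_num)]
    exact hy
  · show ∃ n, K n < (32 * r) ^ (2 * n + 4) * DR.ST n (fun x => ν⁻¹ • u (ν * t / ν) x) y
    rw [mul_div_cancel_left₀ _ hν.ne']
    obtain ⟨l, i, j, hlt⟩ := badW_mono hKc hν hr (show r ≤ 32 * r by linarith) _ hyb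
    refine ⟨l.length, ?_⟩
    by_contra hcon
    have := est_vo1 hK hν (show 0 < 32 * r by linarith) l i j (not_lt.1 hcon)
    linarith

/-- From finitely long paths to paths up to the final time. -/
lemma up_to {t₁ T : ℝ} (h1 : t₁ < T) {S : ℝ → Set V} {A : Set V} {c : ℝ≥0∞}
    (hmono : ∀ a b, a ≤ b → S a ⊆ S b) (hA : A ⊆ ⋃ t ∈ Ioo t₁ T, S t)
    (hS : ∀ t ∈ Ioo t₁ T, volume (S t) ≤ c) : volume A ≤ c := by
  obtain ⟨s, hs⟩ : ∃ s : ℕ → ℝ, s = fun n : ℕ => T - (T - t₁) / ((n : ℝ) + 2) := ⟨_, rfl⟩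
  have hsm : Monotone s := by
    rw [hs]
    intro a b hab
    have : (a : ℝ) ≤ b := by exact_mod_cast hab
    show T - (T - t₁) / ((a : ℝ) + 2) ≤ T - (T - t₁) / ((b : ℝ) + 2)
    have h3 : (T - t₁) / ((b : ℝ) + 2) ≤ (T - t₁) / ((a : ℝ) + 2) := by
      have : 0 ≤ T - t₁ := by linarith
      gcongr
    linarith
  have hsI : ∀ n, s n ∈ Ioo t₁ T := by
    intro n
    rw [hs]
    have h0 : 0 < T - t₁ := by linarith
    have h2 : (0 : ℝ) < (n : ℝ) + 2 := by positivity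
    have h3 : (T - t₁) / ((n : ℝ) + 2) < T - t₁ := by
      rw [div_lt_iff₀ h2]
      have : (0 : ℝ) ≤ n := by positivity
      nlinarith
    have h4 : 0 < (T - t₁) / ((n : ℝ) + 2) := by positivity
    exact ⟨by linarith, by linarith⟩
  have hsub : A ⊆ ⋃ n, S (s n) := by
    intro a ha
    obtain ⟨t, ht, hat⟩ := mem_iUnion₂.1 (hA ha)
    have h0 : 0 < T - t := by linarith [ht.2]
    obtain ⟨n, hn⟩ := exists_nat_ge ((T - t₁) / (T - t))
    refine mem_iUnion.2 ⟨n, hmono t (s n) ?_ hat⟩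
    rw [hs]
    show t ≤ T - (T - t₁) / ((n : ℝ) + 2)
    have h2 : (0 : ℝ) < (n : ℝ) + 2 := by positivity
    have h3 : (T - t₁) / ((n : ℝ) + 2) ≤ T - t := by
      rw [div_le_iff₀ h2]
      rw [div_le_iff₀ h0] at hn
      nlinarith
    linarith
  have hm : Monotone fun n => S (s n) := fun a b hab => hmono _ _ (hsm hab)
  calc volume A ≤ volume (⋃ n, S (s n)) := measure_mono hsub
    _ = ⨆ n, volume (S (s n)) := hm.measure_iUnion
    _ ≤ c := iSup_le fun n => hS _ (hsI n)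

/-- Solutions in the whole space, viscosity one. -/
theorem whole1 : ∃ C : ℝ, 0 < C ∧ ∃ K : ℕ → ℝ, (∀ n, 0 < K n) ∧
    ∀ (T E : ℝ) (u : ℝ → V → V) (p : ℝ → V → ℝ), 0 ≤ E → OSol 1 T E univ u p →
    ∀ r t₁ t₂ : ℝ, 0 < r → r ^ 2 < t₁ → t₁ < t₂ → t₂ < T →
      volume (Lab K r u t₁ t₂) ≤ ENNReal.ofReal (C * r ^ 2) *
        ∫⁻ τ in Ioo (t₁ - r ^ 2) T, ∫⁻ y, ENNReal.ofReal (gsq (u τ) y) := by
  obtain ⟨C, hC, K, hK, H⟩ := wholeT
  refine ⟨C, hC, K, hK, ?_⟩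
  intro T E u p hE hS r t₁ t₂ hr hr1 h12 h2T
  have hr2 : 0 < r ^ 2 := by positivity
  rcases eq_or_ne (∫⁻ τ in Ioo (t₁ - r ^ 2) T, ∫⁻ y, ENNReal.ofReal (gsq (u τ) y)) ⊤ with hD | hD
  · rw [hD, ENNReal.mul_top (by
      rw [Ne, ENNReal.ofReal_eq_zero, not_le]
      positivity)]
    exact le_top
  · obtain ⟨M, hM⟩ := bddW hE hS (a := t₁ - r ^ 2) (b := T) (a' := t₁ - r ^ 2 / 2)
      (b' := (t₂ + T) / 2) (by linarith) le_rfl (by linarith) (by linarith) hD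
    refine (H T E u p hE hS (t₁ - r ^ 2 / 2) ((t₂ + T) / 2) M M (by linarith) (by linarith)
      (fun t ht x => (hM t (Ioo_subset_Icc_self ht) x).1)
      (fun t ht x => (hM t (Ioo_subset_Icc_self ht) x).2) r t₁ t₂ hr hr1 (by linarith) h12
      (by linarith)).trans ?_
    exact mul_le_mul_right (lintegral_mono_set (Ioc_subset_Ioo_right h2T)) _

/-- Solutions in the whole space. -/
theorem wholeL : ∃ C : ℝ, 0 < C ∧ ∃ K : ℕ → ℝ, (∀ n, 0 < K n) ∧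
    ∀ (ν T E : ℝ) (u : ℝ → V → V) (p : ℝ → V → ℝ), 0 < ν → 0 ≤ E → OSol ν T E univ u p →
    ∀ r t₁ : ℝ, 0 < r → 1024 * r ^ 2 / ν < t₁ → t₁ < T →
      volume (badL (Kc K) ν r u t₁ T) ≤ ENNReal.ofReal (C / ν * r ^ 2) *
        ∫⁻ τ in Ioo (t₁ - 1024 * r ^ 2 / ν) T, ∫⁻ y, ENNReal.ofReal (gsq (u τ) y) := by
  obtain ⟨C, hC, K, hK, H⟩ := whole1
  refine ⟨1024 * C, by positivity, K, hK, ?_⟩
  intro ν T E u p hν hE hS r t₁ hr hr1 h1T
  have hSc := W221.NS.B.p_osc ν T E univ u p hν hS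
  refine up_to h1T (S := fun t₂ => {a | ∃ ξ : ℝ → V, ξ t₁ = a ∧ Pathline u t₁ T ξ ∧
    ∃ t ∈ Ioc t₁ t₂, ∃ y ∈ ball (ξ t) r, y ∈ badW (Kc K) ν r (u t)}) ?_ ?_ ?_
  · rintro c d hcd a ⟨ξ, h1, h2, t, ht, h3⟩
    exact ⟨ξ, h1, h2, t, ⟨ht.1, ht.2.trans hcd⟩, h3⟩
  · rintro a ⟨ξ, h1, h2, t, ht, h3⟩
    exact mem_iUnion₂.2 ⟨t, ht, ξ, h1, h2, t, ⟨ht.1, le_rfl⟩, h3⟩
  · intro t₂ ht₂
    have hsub : {a | ∃ ξ : ℝ → V, ξ t₁ = a ∧ Pathline u t₁ T ξ ∧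
        ∃ t ∈ Ioc t₁ t₂, ∃ y ∈ ball (ξ t) r, y ∈ badW (Kc K) ν r (u t)}
        ⊆ Lab K (32 * r) (fun t x => ν⁻¹ • u (t / ν) x) (ν * t₁) (ν * t₂) := by
      rintro a ⟨ξ, h1, h2, t, ht, y, hy, hyb⟩
      exact lab_scale hK hν hr ht₂.2 h1 h2 ht hy hyb
    have h32 : (32 * r) ^ 2 = 1024 * r ^ 2 := by ring
    have hwν : 1024 * r ^ 2 = ν * (1024 * r ^ 2 / ν) := by field_simp
    have h4 := H (ν * T) (E / ν) _ _ (div_nonneg hE hν.le) hSc
      (32 * r) (ν * t₁) (ν * t₂) (by positivity) (by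
        rw [h32, hwν]
        exact mul_lt_mul_of_pos_left hr1 hν)
      (mul_lt_mul_of_pos_left ht₂.1 hν) (mul_lt_mul_of_pos_left ht₂.2 hν)
    refine (measure_mono hsub).trans (h4.trans ?_)
    have h5 : ν * t₁ - (32 * r) ^ 2 = ν * (t₁ - 1024 * r ^ 2 / ν) := by
      rw [h32, mul_sub, ← hwν]
    rw [h5]
    have h6 : ∫⁻ τ in Ioo (ν * (t₁ - 1024 * r ^ 2 / ν)) (ν * T),
        ∫⁻ y, ENNReal.ofReal (gsq (fun x => ν⁻¹ • u (τ / ν) x) y)
        ≤ ∫⁻ τ in Ioo (ν * (t₁ - 1024 * r ^ 2 / ν)) (ν * T),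
          ENNReal.ofReal (ν⁻¹ ^ 2) * ∫⁻ y, ENNReal.ofReal (gsq (u (τ / ν)) y) := by
      refine lintegral_mono fun τ => ?_
      rw [← lintegral_const_mul' _ _ ENNReal.ofReal_ne_top]
      refine lintegral_mono fun y => ?_
      rw [gsq_smul, ENNReal.ofReal_mul (by positivity)]
    refine (mul_le_mul_right h6 _).trans ?_
    rw [lintegral_const_mul' _ _ ENNReal.ofReal_ne_top,
      lint_scale hν (fun τ => ∫⁻ y, ENNReal.ofReal (gsq (u τ) y)), ← mul_assoc, ← mul_assoc,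
      ← ENNReal.ofReal_mul (by positivity), ← ENNReal.ofReal_mul (by positivity)]
    refine mul_le_mul_left (ENNReal.ofReal_le_ofReal (le_of_eq ?_)) _
    field_simp
    norm_num

/-- Periodic solutions. -/
theorem perL : ∃ C : ℝ, 0 < C ∧ ∃ K : ℕ → ℝ, (∀ n, 0 < K n) ∧
    ∀ (ν T : ℝ) (u : ℝ → V → V) (p : ℝ → V → ℝ), 0 < ν → IsSol ν T u p →
    ∀ r t₁ : ℝ, 0 < r → C * (1 + energy (u 0) / ν ^ 2) * r ≤ 1 → 1024 * r ^ 2 / ν < t₁ → t₁ < T →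
      volume (badL (Kc K) ν r u t₁ T ∩ cube) ≤ ENNReal.ofReal (C / ν * r ^ 2 *
        ∫ τ in Ioo (t₁ - 1024 * r ^ 2 / ν) T, enstrophy (u τ)) := by
  obtain ⟨C, hC, K, hK, H⟩ := perT
  refine ⟨1024 * C, by positivity, K, hK, ?_⟩
  intro ν T u p hν hS r t₁ hr hsm hr1 h1T
  have hw0 : 0 < 1024 * r ^ 2 / ν := by positivity
  have hT : 0 < T := by linarith
  have hSc := W221.NS.B.p_scale ν T u p hν hT hS
  have he0 : 0 ≤ energy (u 0) := Finset.sum_nonneg fun i _ => integral_nonneg fun x => sq_nonneg _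
  refine up_to h1T (S := fun t₂ => {a | ∃ ξ : ℝ → V, ξ t₁ = a ∧ Pathline u t₁ T ξ ∧
    ∃ t ∈ Ioc t₁ t₂, ∃ y ∈ ball (ξ t) r, y ∈ badW (Kc K) ν r (u t)} ∩ cube) ?_ ?_ ?_
  · rintro c d hcd a ⟨⟨ξ, h1, h2, t, ht, h3⟩, hc⟩
    exact ⟨⟨ξ, h1, h2, t, ⟨ht.1, ht.2.trans hcd⟩, h3⟩, hc⟩
  · rintro a ⟨⟨ξ, h1, h2, t, ht, h3⟩, hc⟩
    exact mem_iUnion₂.2 ⟨t, ht, ⟨ξ, h1, h2, t, ⟨ht.1, le_rfl⟩, h3⟩, hc⟩
  · intro t₂ ht₂
    have hν1 : 0 < ν⁻¹ := by positivity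
    have hsub : {a | ∃ ξ : ℝ → V, ξ t₁ = a ∧ Pathline u t₁ T ξ ∧
        ∃ t ∈ Ioc t₁ t₂, ∃ y ∈ ball (ξ t) r, y ∈ badW (Kc K) ν r (u t)} ∩ cube
        ⊆ Lab K (32 * r) (fun t x => ν⁻¹ • u (t / ν) x) (ν * t₁) (ν * t₂) ∩ cube := by
      rintro a ⟨⟨ξ, h1, h2, t, ht, y, hy, hyb⟩, hc⟩
      exact ⟨lab_scale hK hν hr ht₂.2 h1 h2 ht hy hyb, hc⟩
    have h32 : (32 * r) ^ 2 = 1024 * r ^ 2 := by ring
    have hwν : 1024 * r ^ 2 = ν * (1024 * r ^ 2 / ν) := by field_simp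
    have hen : energy (fun x => ν⁻¹ • u (0 / ν) x) = energy (u 0) / ν ^ 2 := by
      rw [energy_smul, zero_div]
      field_simp
    have h4 := H (ν * T) _ _ hSc (32 * r) (ν * t₁) (ν * t₂) (by positivity) (by
        rw [hen]
        have : 0 ≤ C * (1 + energy (u 0) / ν ^ 2) * r := by positivity
        linarith) (by
        rw [h32, hwν]
        exact mul_lt_mul_of_pos_left hr1 hν) (mul_lt_mul_of_pos_left ht₂.1 hν)
      (mul_lt_mul_of_pos_left ht₂.2 hν)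
    refine (measure_mono hsub).trans (h4.trans ?_)
    have h5 : ν * t₁ - (32 * r) ^ 2 = ν * (t₁ - 1024 * r ^ 2 / ν) := by
      rw [h32, mul_sub, ← hwν]
    rw [h5]
    have h6 : ∫⁻ τ in Ioc (ν * (t₁ - 1024 * r ^ 2 / ν)) (ν * t₂),
        ENNReal.ofReal (enstrophy fun x => ν⁻¹ • u (τ / ν) x)
        ≤ ∫⁻ τ in Ioo (ν * (t₁ - 1024 * r ^ 2 / ν)) (ν * T),
          ENNReal.ofReal (ν⁻¹ ^ 2) * ENNReal.ofReal (enstrophy (u (τ / ν))) := by
      refine (lintegral_mono_set (Ioc_subset_Ioo_right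
        (mul_lt_mul_of_pos_left ht₂.2 hν))).trans ?_
      refine lintegral_mono fun τ => ?_
      rw [enstrophy_smul, ENNReal.ofReal_mul (by positivity)]
    refine (mul_le_mul_right h6 _).trans ?_
    have hint : IntegrableOn (fun τ => enstrophy (u τ)) (Ioo (t₁ - 1024 * r ^ 2 / ν) T) :=
      (W221.NS.B.p_enst ν T u p hν hT hS).mono_set (Ioo_subset_Ioo (by linarith) le_rfl)
    have hi0 : 0 ≤ ∫ τ in Ioo (t₁ - 1024 * r ^ 2 / ν) T, enstrophy (u τ) :=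
      integral_nonneg fun t => W221.NS.enstrophy_nonneg _
    rw [lintegral_const_mul' _ _ ENNReal.ofReal_ne_top,
      lint_scale hν (fun τ => ENNReal.ofReal (enstrophy (u τ))),
      ← ofReal_integral_eq_lintegral_ofReal hint
        (Eventually.of_forall fun t => W221.NS.enstrophy_nonneg (u t)), ← mul_assoc, ← mul_assoc,
      ← ENNReal.ofReal_mul (by positivity), ← ENNReal.ofReal_mul (by positivity),
      ← ENNReal.ofReal_mul (by positivity)]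
    refine ENNReal.ofReal_le_ofReal (le_of_eq ?_)
    field_simp
    norm_num

end Pool.Agent.TH305.LG
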