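import Pool.Agent.TH305.LG.Tube

/-!
Particle paths (helper305): the exceptional set of final positions.
-/

set_option autoImplicit false

open MeasureTheory Set Metric Filter Topology
open scoped ContDiff ENNReal

namespace Pool.Agent.TH305.LG

open H459R3.NS W221.NS Pool.Agent.TH305.DR Pool.Agent.TH305.LW

/-- Paths of the mollified velocity with little dissipation, for all final positions outside a
small set. -/
theorem paths (ε : ℝ) (hε : 0 < ε) : ∃ C0 : ℝ, 0 < C0 ∧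
    ∀ (T κ E : ℝ) (O : Set V) (u : ℝ → V → V) (p : ℝ → V → ℝ), 0 ≤ κ → 0 ≤ E →
      LSol T κ E O u p → ∀ r s : ℝ, 0 < r → r ^ 2 < s → s < T → C0 * κ * √r ≤ 1 →
      ∃ B : Set V, MeasurableSet B ∧
        volume B ≤ ENNReal.ofReal (C0 * r ^ 2) *
          ∫⁻ τ in Ioo (s - r ^ 2) s, ∫⁻ y in O, ENNReal.ofReal (gsq (u τ) y) ∧
        ∀ x, x ∉ B → ball x (C0 * (r + E * √r)) ⊆ O → ∃ Y : ℝ → V, Y s = x ∧
          Pth r u (s - r ^ 2) s Y ∧ (∀ t ∈ Ioo (s - r ^ 2) s, ball (Y t) (8 * r) ⊆ O) ∧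
          ms u r Y (s - r ^ 2) s ≤ ε := by
  obtain ⟨CM, hCM, hmol⟩ := W221.NS.B.p_moll2
  refine ⟨8 + CM + 3 * 4096 / ε, by positivity, ?_⟩
  intro T κ E O u p hκ hE hL r s hr hrs hsT hκr
  have hu := hL.smooth_u
  have hr2 : 0 < r ^ 2 := by positivity
  have hsr0 : 0 < √r := Real.sqrt_pos.2 hr
  have hss : √r * √r = r := Real.mul_self_sqrt hr.le
  have hsr : √(r ^ 3) = r * √r := by
    rw [show r ^ 3 = r ^ 2 * r by ring, Real.sqrt_mul (by positivity), Real.sqrt_sq hr.le]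
  obtain ⟨L, hgood⟩ := hmol T κ E O u p hκ hE hL r hr
  have hMr : CM * E / √(r ^ 3) * r ^ 2 = CM * E * √r := by
    rw [hsr, div_mul_eq_mul_div, div_eq_iff (by positivity)]
    calc CM * E * r ^ 2 = CM * E * (r * (√r * √r)) := by rw [hss]; ring
      _ = _ := by ring
  have hq0 : 0 ≤ 3 * 4096 / ε := by positivity
  have hκ' : CM * κ / √(r ^ 3) * r ^ 2 ≤ 1 := by
    have e : CM * κ / √(r ^ 3) * r ^ 2 = CM * κ * √r := by
      rw [hsr, div_mul_eq_mul_div, div_eq_iff (by positivity)]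
      calc CM * κ * r ^ 2 = CM * κ * (r * (√r * √r)) := by rw [hss]; ring
        _ = _ := by ring
    rw [e]
    refine le_trans ?_ hκr
    gcongr
    linarith
  have hα : 0 < s - r ^ 2 := by linarith
  obtain ⟨X, hX⟩ := W221.NS.B.p_flowx2 T _ L _ _ hgood (s - r ^ 2) s hα (by linarith) hsT
  have hmap0 := W221.NS.B.p_flowm2 T _ L _ _ hgood (s - r ^ 2) s hα (by linarith) hsT X hX
  have hmap : ∀ t ∈ Icc (s - r ^ 2) s, Measure.map (X t) volume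
      ≤ ENNReal.ofReal 3 • (volume : Measure V) := by
    intro t ht
    refine (hmap0 t ht).trans ?_
    have h1 : Real.exp (CM * κ / √(r ^ 3) * (s - (s - r ^ 2))) ≤ 3 := by
      have e : s - (s - r ^ 2) = r ^ 2 := by ring
      rw [e]
      calc Real.exp (CM * κ / √(r ^ 3) * r ^ 2) ≤ Real.exp 1 := Real.exp_le_exp.2 hκ'
        _ ≤ 3 := by
          have := Real.exp_one_lt_d9
          linarith
    intro A
    simp only [Measure.smul_apply, smul_eq_mul]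
    exact mul_le_mul_left (ENNReal.ofReal_le_ofReal h1) _
  obtain ⟨hFm, hFi⟩ := mark5 hL.openO hu hr hα (by linarith) hsT hX.cont hmap
  refine ⟨{x | ENNReal.ofReal (ε * r) ≤ ∫⁻ τ in Ioo (s - r ^ 2) s,
    ∫⁻ y in ball (X τ x) (8 * r) ∩ O, ENNReal.ofReal (gsq (u τ) y)},
    measurableSet_le measurable_const hFm,
    cheb hε hr (show 0 ≤ 8 + CM by linarith) hFm hFi, ?_⟩
  intro x hxB hxO
  have hFx : ∫⁻ τ in Ioo (s - r ^ 2) s, ∫⁻ y in ball (X τ x) (8 * r) ∩ O,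
      ENNReal.ofReal (gsq (u τ) y) < ENNReal.ofReal (ε * r) := by
    rw [mem_setOf_eq, not_le] at hxB
    exact hxB
  have hMb : ∀ t ∈ Ioo (s - r ^ 2) s, ∀ x, ‖mol r u t x‖ ≤ CM * E / √(r ^ 3) :=
    fun t ht x => hgood.bd t ⟨by linarith [ht.1], ht.2.trans hsT⟩ x
  have hM0 : 0 ≤ CM * E / √(r ^ 3) := by positivity
  have hball : ∀ t ∈ Ioo (s - r ^ 2) s, ball (X t x) (8 * r) ⊆ O := by
    intro t ht
    have hdis : ‖x - X t x‖ ≤ CM * E / √(r ^ 3) * (s - t) := by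
      have := W382.ME.speed hX hMb ht x
      rwa [hX.fin x] at this
    have h2 : CM * E / √(r ^ 3) * (s - t) ≤ CM * E * √r := by
      rw [← hMr]
      exact mul_le_mul_of_nonneg_left (by linarith [ht.1]) hM0
    refine ball_path (hdis.trans h2) ?_ hxO
    have h4 : 0 ≤ E * √r := by positivity
    have h5 : 0 ≤ (CM + 3 * 4096 / ε) * r := by positivity
    have h6 : 0 ≤ (8 + 3 * 4096 / ε) * (E * √r) := by positivity
    linarith only [h4, h5, h6]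
  have hPth : Pth r u (s - r ^ 2) s (fun τ => X τ x) := Pth.ofFlow hX x
  exact ⟨fun τ => X τ x, hX.fin x, hPth, hball, ms_small hu hr hα hsT hε hPth.cont hball hFx⟩

/-- The exceptional set of final positions, for particle paths. -/
theorem fixL : ∃ C0 : ℝ, 0 < C0 ∧ ∃ m : ℕ, 32 ≤ m ∧ ∃ K : ℕ → ℝ, (∀ n, 0 < K n) ∧
    ∀ (T κ E : ℝ) (O : Set V) (u : ℝ → V → V) (p : ℝ → V → ℝ), 0 ≤ κ → 0 ≤ E →
      LSol T κ E O u p → ∀ r s : ℝ, 0 < r → r ^ 2 < s → s < T → C0 * κ * √r ≤ 1 →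
      ∃ B : Set V, MeasurableSet B ∧
        volume B ≤ ENNReal.ofReal (C0 * r ^ 2) *
          ∫⁻ τ in Ioo (s - r ^ 2) s, ∫⁻ y in O, ENNReal.ofReal (gsq (u τ) y) ∧
        ∀ x, x ∉ B → ball x (C0 * (r + E * √r)) ⊆ O →
          (∀ y ∈ ball x (r / 16), ∀ n, r ^ (2 * n + 4) * ST n (u s) y ≤ K n) ∧
          ∀ h : ℝ, 0 < h → h * m ≤ r ^ 2 → ∀ ξ : ℝ → V, ContinuousOn ξ (Icc (s - h) s) →
            ξ s = x →
            (∀ τ ∈ Ioo (s - h) s, ∃ w, HasDerivAt ξ w τ ∧ (ξ τ ∈ O → w = u τ (ξ τ))) →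
            ∀ τ ∈ Ioo (s - h) s, ∀ y ∈ ball (ξ τ) (r / 32), y ∈ O ∧ ∀ n,
              r ^ (2 * n + 4) * ST n (u τ) y ≤ K n := by
  obtain ⟨ε1, hε1, C1, CA, hC1, hCA, hP⟩ := fixP
  obtain ⟨ε2, hε2, δ, C2, hδ, hδ32, hC2, hT⟩ := tube
  obtain ⟨ε, hε, hle1, hle2⟩ : ∃ ε : ℝ, 0 < ε ∧ ε ≤ ε1 ∧ ε ≤ ε2 :=
    ⟨min ε1 ε2, lt_min hε1 hε2, min_le_left _ _, min_le_right _ _⟩
  obtain ⟨C0, hC0, H⟩ := paths ε hε
  obtain ⟨m, hm⟩ := exists_nat_ge (max 32 (1 / δ))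
  have hm32 : (32 : ℝ) ≤ m := (le_max_left _ _).trans hm
  have hmδ : 1 / δ ≤ m := (le_max_right _ _).trans hm
  refine ⟨C0, hC0, m, by exact_mod_cast hm32, fun n => C1 n + C2 n, fun n =>
    add_pos (hC1 n) (hC2 n), ?_⟩
  intro T κ E O u p hκ hE hL r s hr hrs hsT hκr
  obtain ⟨B, hBm, hBv, hB⟩ := H T κ E O u p hκ hE hL r s hr hrs hsT hκr
  refine ⟨B, hBm, hBv, ?_⟩
  intro x hxB hxO
  obtain ⟨Y, hYs, hPth, hball, hms⟩ := hB x hxB hxO
  refine ⟨fun y hy n => ?_, ?_⟩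
  · have hz : r⁻¹ • (y - x) ∈ ball (0 : V) (1 / 16) := by
      rw [mem_ball, dist_eq_norm] at hy
      rw [mem_ball_zero_iff, norm_smul, Real.norm_eq_abs, abs_of_pos (inv_pos.2 hr)]
      calc r⁻¹ * ‖y - x‖ < r⁻¹ * (r / 16) := by gcongr
        _ = 1 / 16 := by field_simp
    have hzx : x + r • (r⁻¹ • (y - x)) = y := by
      rw [smul_smul, mul_inv_cancel₀ hr.ne', one_smul, add_sub_cancel]
    obtain ⟨r1, -⟩ := hP T κ E O u p hL r s hr hrs hsT Y hPth hball (hms.trans hle1) _ hz n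
    rw [hYs, hzx] at r1
    have := hC2 n
    linarith
  · intro h hh0 hh ξ hξ hξs hξd τ hτ y hy
    have hhδ : h ≤ δ * r ^ 2 := by
      have h1 : 1 ≤ δ * m := by
        rw [div_le_iff₀ hδ] at hmδ
        linarith
      have h2 : δ * (h * m) ≤ δ * r ^ 2 := by gcongr
      nlinarith
    obtain ⟨q1, q2⟩ := hT T κ E O u p hL r s hr hrs hsT Y hPth hball (hms.trans hle2) h hh0 hhδ ξ hξ
      (by rw [hξs, hYs]) hξd τ hτ y hy
    refine ⟨q1, fun n => (q2 n).trans ?_⟩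
    have := hC1 n
    linarith

end Pool.Agent.TH305.LG
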