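import Pool.Agent.TH305.LG.FixL

/-!
Particle paths (helper305): the flow of a bounded Lipschitz field labelled by the initial
positions, uniqueness of trajectories.
-/

set_option autoImplicit false

open MeasureTheory Set Metric Filter Topology
open scoped ContDiff ENNReal NNReal

namespace Pool.Agent.TH305.LG

open H459R3.NS W221.NS Pool.Agent.TH305.DR Pool.Agent.TH305.LW

/-- A trajectory of the field `u` on `[t₁, t₂]`. -/
structure Traj (u : ℝ → V → V) (t₁ t₂ : ℝ) (ξ : ℝ → V) : Prop where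
  cont : ContinuousOn ξ (Icc t₁ t₂)
  ode : ∀ t ∈ Ioo t₁ t₂, HasDerivAt ξ (u t (ξ t)) t

/-- The flow, labelled by the initial positions. -/
theorem flowF {T M L : ℝ} {u : ℝ → V → V}
    (hu : ContDiffOn ℝ ∞ (fun z : ℝ × V => u z.1 z.2) (Ioo 0 T ×ˢ univ))
    (hdiv : ∀ t ∈ Ioo 0 T, ∀ x, dv (u t) x = 0) {c d : ℝ} (hc : 0 ≤ c) (hd : d ≤ T)
    (hM : ∀ t ∈ Ioo c d, ∀ x, ‖u t x‖ ≤ M)
    (hL : ∀ t ∈ Ioo c d, ∀ x i j, |pd j (fun y => u t y i) x| ≤ L) {t₁ t₂ : ℝ} (h1 : c < t₁)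
    (h12 : t₁ < t₂) (h2 : t₂ < d) :
    ∃ F : ℝ → V → V, (∀ a, F t₁ a = a) ∧ (∀ a, Traj u t₁ t₂ (fun t => F t a)) ∧
      ∀ s ∈ Icc t₁ t₂, Continuous (F s) ∧ Measure.map (F s) volume ≤ volume := by
  have hsubT : ∀ t ∈ Ioo c d, t ∈ Ioo 0 T := fun t ht => ⟨hc.trans_lt ht.1, ht.2.trans_le hd⟩
  have hm : ∀ τ ∈ Ioo 0 (d - c), d - τ ∈ Ioo c d := fun τ hτ => ⟨by linarith [hτ.2], by
    linarith [hτ.1]⟩
  have hg : Good2 (d - c) M L 0 (fun τ x => -u (d - τ) x) :=
    { smooth := by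
        have h3 : ContDiffOn ℝ ∞ (fun z : ℝ × V => u (d - z.1) z.2) (Ioo 0 (d - c) ×ˢ univ) := by
          apply hu.comp (f := fun z : ℝ × V => (d - z.1, z.2)) (by fun_prop)
          intro z hz
          exact ⟨hsubT _ (hm _ hz.1), trivial⟩
        exact h3.neg
      bd := fun t ht x => by
        show ‖-u (d - t) x‖ ≤ M
        rw [norm_neg]
        exact hM _ (hm t ht) x
      lip := fun t ht x i j => by
        have h3 : pd j (fun y => (-u (d - t) y) i) x = -pd j (fun y => u (d - t) y i) x := by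
          unfold pd
          have : (fun y => (-u (d - t) y) i) = -(fun y => u (d - t) y i) := rfl
          rw [this, fderiv_neg]
          rfl
        show |pd j (fun y => (-u (d - t) y) i) x| ≤ L
        rw [h3, abs_neg]
        exact hL _ (hm t ht) x i j
      div := fun t ht x => by
        have h3 : ∀ i, pd i (fun y => (-u (d - t) y) i) x = -pd i (fun y => u (d - t) y i) x := by
          intro i
          unfold pd
          have : (fun y => (-u (d - t) y) i) = -(fun y => u (d - t) y i) := rfl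
          rw [this, fderiv_neg]
          rfl
        have h4 : dv (fun x => -u (d - t) x) x = -dv (u (d - t)) x := by
          unfold dv
          rw [← Finset.sum_neg_distrib]
          exact Finset.sum_congr rfl fun i _ => h3 i
        show |dv (fun x => -u (d - t) x) x| ≤ 0
        rw [h4, hdiv _ (hsubT _ (hm t ht)) x]
        simp }
  have hα : 0 < d - t₂ := by linarith
  have hαβ : d - t₂ < d - t₁ := by linarith
  have hβ : d - t₁ < d - c := by linarith
  obtain ⟨X, hX⟩ := W221.NS.B.p_flowx2 _ _ _ _ _ hg _ _ hα hαβ hβ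
  have hmap := W221.NS.B.p_flowm2 _ _ _ _ _ hg _ _ hα hαβ hβ X hX
  have hI : ∀ s ∈ Icc t₁ t₂, d - s ∈ Icc (d - t₂) (d - t₁) := fun s hs => ⟨by linarith [hs.2], by
    linarith [hs.1]⟩
  refine ⟨fun t a => X (d - t) a, fun a => hX.fin a, fun a => ⟨?_, ?_⟩, fun s hs => ⟨?_, ?_⟩⟩
  · exact hX.cont.comp (f := fun τ : ℝ => (d - τ, a)) (by fun_prop)
      (fun τ hτ => ⟨hI τ hτ, mem_univ _⟩)
  · intro t ht
    have h3 := hX.ode a (d - t) ⟨by linarith [ht.2], by linarith [ht.1]⟩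
    have h4 : HasDerivAt (fun t : ℝ => d - t) (-1) t := by
      simpa using (hasDerivAt_id t).const_sub d
    have h5 := h3.scomp t h4
    simp only [neg_smul, one_smul, neg_neg, sub_sub_cancel] at h5
    exact h5
  · exact continuousOn_univ.1 (hX.cont.comp (f := fun a : V => (d - s, a)) (by fun_prop)
      (fun a _ => ⟨hI s hs, mem_univ _⟩))
  · have h3 := hmap (d - s) (hI s hs)
    simpa using h3

/-- A field with bounded partial derivatives is Lipschitz. -/
lemma lip_of_pd {L : ℝ} (hL0 : 0 ≤ L) {v : V → V} (hv : Differentiable ℝ v)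
    (hL : ∀ x i j, |pd j (fun y => v y i) x| ≤ L) : LipschitzWith (3 * L).toNNReal v := by
  refine lipschitzWith_of_nnnorm_fderiv_le (fun x => hv x) ?_
  intro x
  rw [← NNReal.coe_le_coe, coe_nnnorm, Real.coe_toNNReal _ (by positivity)]
  refine W398.ME.FLOWX2.opnorm_le hL0 fun i j => ?_
  have h2 := hasFDerivAt_pi'.1 (hv x).hasFDerivAt i
  have h3 := hL x i j
  unfold pd at h3
  rw [h2.fderiv] at h3
  exact h3

/-- Uniqueness of trajectories. -/
theorem traj_unique {K : ℝ≥0} {u : ℝ → V → V} {t₁ t₂ : ℝ}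
    (hK : ∀ t ∈ Ioo t₁ t₂, LipschitzWith K (u t)) {ξ η : ℝ → V}
    (hξ : Traj u t₁ t₂ ξ) (hη : Traj u t₁ t₂ η) (h0 : ξ t₁ = η t₁) :
    ∀ t ∈ Icc t₁ t₂, ξ t = η t := by
  intro t ht
  rcases eq_or_lt_of_le ht.1 with h | h
  · rw [← h]; exact h0
  have hsub : Icc t₁ t ⊆ Icc t₁ t₂ := Icc_subset_Icc le_rfl ht.2
  have key : ∀ a ∈ Ioo t₁ t, dist (ξ t) (η t) ≤ dist (ξ a) (η a) * Real.exp (K * (t - a)) := by
    intro a ha
    have hIa : ∀ τ ∈ Ico a t, τ ∈ Ioo t₁ t₂ := fun τ hτ => ⟨ha.1.trans_le hτ.1,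
      hτ.2.trans_le ht.2⟩
    exact dist_le_of_trajectories_ODE_of_mem (v := u) (K := K) (s := fun _ => univ)
      (fun τ hτ => (hK τ (hIa τ hτ)).lipschitzOnWith)
      (hξ.cont.mono (Icc_subset_Icc ha.1.le ht.2))
      (fun τ hτ => (hξ.ode τ (hIa τ hτ)).hasDerivWithinAt) (fun _ _ => trivial)
      (hη.cont.mono (Icc_subset_Icc ha.1.le ht.2))
      (fun τ hτ => (hη.ode τ (hIa τ hτ)).hasDerivWithinAt) (fun _ _ => trivial) le_rfl t
      ⟨ha.2.le, le_rfl⟩
  have hlim : Tendsto (fun a => dist (ξ a) (η a) * Real.exp (K * (t - a))) (𝓝[Ioo t₁ t] t₁)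
      (𝓝 (dist (ξ t₁) (η t₁) * Real.exp (K * (t - t₁)))) := by
    have hc : ContinuousOn (fun a => dist (ξ a) (η a) * Real.exp (K * (t - a))) (Icc t₁ t) :=
      (continuous_dist.comp_continuousOn ((hξ.cont.mono hsub).prodMk (hη.cont.mono hsub))).mul
        (by fun_prop)
    exact (hc t₁ ⟨le_rfl, h.le⟩).mono_left (nhdsWithin_mono _ Ioo_subset_Icc_self)
  have hne : (𝓝[Ioo t₁ t] t₁).NeBot := by
    rw [nhdsWithin_Ioo_eq_nhdsGT h]
    infer_instance
  have h3 := ge_of_tendsto hlim (eventually_nhdsWithin_of_forall key)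
  rw [h0, dist_self, zero_mul] at h3
  exact dist_le_zero.1 h3

end Pool.Agent.TH305.LG
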