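import Pool.Agent.TH305.LG.Peri0

/-!
Particle paths (helper305): periodic solutions, viscosity one.
-/

set_option autoImplicit false

open MeasureTheory Set Metric Filter Topology
open scoped ContDiff ENNReal NNReal

namespace Pool.Agent.TH305.LG

open H459R3.NS W221.NS Pool.Agent.TH305.DR Pool.Agent.TH305.LW Pool.Agent.W349.MF

lemma traj_shift {u : ℝ → V → V} {t₁ t₂ : ℝ} (hp : ∀ t ∈ Ioo t₁ t₂, Per (u t)) {ξ : ℝ → V}
    (hξ : Traj u t₁ t₂ ξ) (n : K3) : Traj u t₁ t₂ (fun τ => ξ τ - iv n) where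
  cont := hξ.cont.sub continuousOn_const
  ode := fun t ht => by
    have h := (hξ.ode t ht).sub_const (iv n)
    rw [← per_iv' (hp t ht) n] at h
    exact h

lemma zt_one {x : V} (hx : x ∈ ball (0 : V) 3) : zt x = 1 :=
  zt.one_of_mem_closedBall (ball_subset_closedBall hx)

/-- Small radii. -/
lemma small_r {C A e r : ℝ} (hC : 0 < C) (hA : 0 < A) (he : 0 ≤ e) (hr : 0 < r)
    (h : (C + C ^ 2 * A ^ 2) * (1 + e) * r ≤ 1) :
    C * (A * √e) * √r ≤ 1 ∧ C * (r + A * √e * √r) ≤ 2 := by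
  have h1 : (C * (A * √e) * √r) ^ 2 ≤ 1 := by
    have e1 : (C * (A * √e) * √r) ^ 2 = C ^ 2 * A ^ 2 * (√e ^ 2) * (√r ^ 2) := by ring
    rw [e1, Real.sq_sqrt he, Real.sq_sqrt hr.le]
    have h2 : 0 ≤ C * (1 + e) * r + C ^ 2 * A ^ 2 * r := by positivity
    linarith
  have h2 : 0 ≤ C * (A * √e) * √r := by positivity
  have h3 : C * (A * √e) * √r ≤ 1 := by nlinarith
  have h4 : C * r ≤ 1 := by
    have : 0 ≤ C * e * r + C ^ 2 * A ^ 2 * (1 + e) * r := by positivity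
    linarith
  refine ⟨h3, ?_⟩
  linarith

/-- Periodic solutions. -/
theorem perT : ∃ C : ℝ, 0 < C ∧ ∃ K : ℕ → ℝ, (∀ n, 0 < K n) ∧
    ∀ (T : ℝ) (u : ℝ → V → V) (p : ℝ → V → ℝ), IsSol 1 T u p →
    ∀ r t₁ t₂ : ℝ, 0 < r → C * (1 + energy (u 0)) * r ≤ 1 → r ^ 2 < t₁ → t₁ < t₂ → t₂ < T →
      volume (Lab K r u t₁ t₂ ∩ cube) ≤ ENNReal.ofReal (C * r ^ 2) *
        ∫⁻ τ in Ioc (t₁ - r ^ 2) t₂, ENNReal.ofReal (enstrophy (u τ)) := by
  obtain ⟨C, hC, m, hm32, K, hK, H⟩ := fixL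
  obtain ⟨A, hA, HP⟩ := W221.NS.B.p_perl
  have hm : 0 < m := by omega
  refine ⟨(C + C ^ 2 * A ^ 2) + 1 + m * (216 * C), by positivity, K, hK, ?_⟩
  intro T u p hS r t₁ t₂ hr hsm hr1 h12 h2T
  have hr2 : 0 < r ^ 2 := by positivity
  have hT : 0 < T := by linarith
  have he0 : 0 ≤ energy (u 0) := Finset.sum_nonneg fun i _ => integral_nonneg fun x => sq_nonneg _
  obtain ⟨s1, s2⟩ := small_r hC hA he0 hr (le_trans (by
    have : 0 ≤ (1 + m * (216 * C)) * (1 + energy (u 0)) * r := by positivity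
    linarith) hsm)
  have hLS := HP T u p hT hS
  have hsu : ContDiffOn ℝ ∞ (fun z : ℝ × V => u z.1 z.2) (Ioo 0 T ×ˢ univ) :=
    hS.smooth_u.mono (prod_mono Ioo_subset_Ico_self subset_rfl)
  have hpu : ∀ t ∈ Ioo 0 T, Per (u t) := fun t ht => hS.per_u t ⟨ht.1.le, ht.2⟩
  obtain ⟨M, hM⟩ := per_bdd hsu hpu (a := t₁ / 2) (b := (t₂ + T) / 2) (by linarith) (by linarith)
  obtain ⟨F, hF1, hF2, hF3⟩ := flowF hsu (fun t ht x => hS.divfree t ⟨ht.1.le, ht.2⟩ x)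
    (c := t₁ / 2) (d := (t₂ + T) / 2) (by linarith) (by linarith)
    (fun t ht x => (hM t (Ioo_subset_Icc_self ht) x).1)
    (fun t ht x => (hM t (Ioo_subset_Icc_self ht) x).2) (t₁ := t₁) (t₂ := t₂) (by linarith) h12
    (by linarith)
  have hB : ∀ s ∈ Icc t₁ t₂, ∃ B : Set V, MeasurableSet B ∧
      volume B ≤ ENNReal.ofReal (C * r ^ 2) *
        ∫⁻ τ in Ioo (s - r ^ 2) s, ∫⁻ y in ball (0 : V) 3,
          ENNReal.ofReal (gsq (fun x => zt x • u τ x) y) ∧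
      ∀ x, x ∉ B → x ∈ cell → ball x 2 ⊆ ball (0 : V) 3 ∧
        (∀ y ∈ ball x (r / 16), ∀ n,
          r ^ (2 * n + 4) * ST n (fun x => zt x • u s x) y ≤ K n) ∧
          ∀ h : ℝ, 0 < h → h * m ≤ r ^ 2 → ∀ ξ : ℝ → V, ContinuousOn ξ (Icc (s - h) s) →
            ξ s = x →
            (∀ τ ∈ Ioo (s - h) s, ∃ w, HasDerivAt ξ w τ ∧
              (ξ τ ∈ ball (0 : V) 3 → w = (fun x => zt x • u τ x) (ξ τ))) →
            ∀ τ ∈ Ioo (s - h) s, ∀ y ∈ ball (ξ τ) (r / 32), y ∈ ball (0 : V) 3 ∧ ∀ n,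
              r ^ (2 * n + 4) * ST n (fun x => zt x • u τ x) y ≤ K n := by
    intro s hs
    obtain ⟨B, q1, q2, q3⟩ := H T (A * √(energy (u 0))) (A * √(energy (u 0))) (ball 0 3) _ _
      (by positivity) (by positivity) hLS r s hr (hr1.trans_le hs.1) (hs.2.trans_lt h2T) s1
    refine ⟨B, q1, q2, fun x hx hxc => ?_⟩
    have hb : ball x 2 ⊆ ball (0 : V) 3 := by
      intro y hy
      rw [mem_ball] at hy ⊢
      have h1 := dist_triangle y x 0
      rw [dist_zero_right x] at h1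
      have := cell_norm hxc
      linarith
    obtain ⟨g1, g2⟩ := q3 x hx ((ball_subset_ball s2).trans hb)
    exact ⟨hb, g1, g2⟩
  choose! B hBm hBv hBx using hB
  have hL0 : 0 ≤ M := (norm_nonneg _).trans (hM t₁ ⟨by linarith, by linarith⟩ 0).1
  have hlip : ∀ t ∈ Ioo t₁ t₂, LipschitzWith (3 * M).toNNReal (u t) := by
    intro t ht
    have htT : t ∈ Ioo 0 T := ⟨by linarith [ht.1], by linarith [ht.2]⟩
    exact lip_of_pd hL0 ((slice_smooth hsu htT).differentiable (by norm_cast))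
      (fun x => (hM t ⟨by linarith [ht.1], by linarith [ht.2]⟩ x).2)
  have hpI : ∀ t ∈ Ioo t₁ t₂, Per (u t) := fun t ht => hpu t ⟨by linarith [ht.1], by
    linarith [ht.2]⟩
  have hFn : ∀ s ∈ Icc t₁ t₂, ∀ (a : V) (n : K3), F s (a - iv n) = F s a - iv n := by
    intro s hs a n
    exact traj_unique hlip (hF2 (a - iv n)) (traj_shift hpI (hF2 a) n)
      (by rw [hF1, hF1]) s hs
  have hm0 : (0 : ℝ) < m := by exact_mod_cast hm
  have hh : 0 < r ^ 2 / m := by positivity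
  have hsk : ∀ k ∈ Finset.range (⌊(t₂ - t₁) / (r ^ 2 / m)⌋₊ + 1),
      t₂ - k * (r ^ 2 / m) ∈ Icc t₁ t₂ := by
    intro k hk
    rw [Finset.mem_range, Nat.lt_succ_iff] at hk
    have h3 : (k : ℝ) ≤ (t₂ - t₁) / (r ^ 2 / m) := by
      refine le_trans (by exact_mod_cast hk) (Nat.floor_le (div_nonneg (by linarith) hh.le))
    rw [le_div_iff₀ hh] at h3
    have : 0 ≤ (k : ℝ) * (r ^ 2 / m) := by positivity
    exact ⟨by linarith, by linarith⟩
  have hr16 : r / 16 ≤ 2 := by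
    have h1 : 0 ≤ ((C + C ^ 2 * A ^ 2) + m * (216 * C)) * (1 + energy (u 0)) * r
        + energy (u 0) * r := by positivity
    linarith
  refine (cube_cell _).trans ?_
  have hmain : volume (Lab K r u t₁ t₂ ∩ cell) ≤ ENNReal.ofReal (m * (216 * C * r ^ 2)) *
      ∫⁻ τ in Ioc (t₁ - r ^ 2) t₂, ENNReal.ofReal (enstrophy (u τ)) := by
    refine union_bd hm h12 (fun k => {a | a ∈ cell ∧ ∃ n : K3,
      a - iv n ∈ F (t₂ - k * (r ^ 2 / m)) ⁻¹' B (t₂ - k * (r ^ 2 / m))}) ?_ ?_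
    · rintro a ⟨⟨ξ, hξa, hξ, t, ht, y, hy, q, hq⟩, hac⟩
      obtain ⟨k, hk, hk1, hk2⟩ := win_of hh ht.1 ht.2
      have hs := hsk k hk
      refine mem_biUnion (x := k) hk ⟨hac, ?_⟩
      obtain ⟨s, hsdef⟩ : ∃ s, s = t₂ - k * (r ^ 2 / m) := ⟨_, rfl⟩
      rw [← hsdef] at hk1 hk2 hs ⊢
      have hFa : ξ s = F s a := traj_unique hlip hξ (hF2 a) (by rw [hξa, hF1]) _ hs
      obtain ⟨n, hn⟩ : ∃ n : K3, n = fun i => ⌊ξ s i⌋ := ⟨_, rfl⟩
      have hxc : ξ s - iv n ∈ cell := by rw [hn]; exact floor_cell _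
      refine ⟨n, ?_⟩
      show F s (a - iv n) ∈ B s
      rw [hFn s hs, ← hFa]
      by_contra hnB
      obtain ⟨g0, g1, g2⟩ := hBx _ hs _ hnB hxc
      have htT : t ∈ Ioo 0 T := ⟨by linarith [ht.1], by linarith [ht.2]⟩
      have hy' : y - iv n ∈ ball (ξ t - iv n) (r / 32) := by
        rw [mem_ball, dist_sub_right]
        exact hy
      obtain ⟨o1, o2⟩ := win_pt hr hm (K := K) (O := ball 0 3) (u := fun τ x => zt x • u τ x)
        (w := u) (fun τ _ y hy => by rw [zt_one hy, one_smul]) ((ball_subset_ball hr16).trans g0)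
        g1 g2 (traj_shift hpI hξ n) rfl hs.2 ht.1 hk1 hk2 (y - iv n) hy'
      have h5 := o2 q
      rw [ST_congr q isOpen_ball (w := u t) (fun z hz => by rw [zt_one hz, one_smul]) o1,
        per_iv' (per_ST q (hpu t htT)) n] at h5
      linarith
    · intro k hk
      have hs := hsk k hk
      obtain ⟨c1, c2⟩ := hF3 _ hs
      have hmB : MeasurableSet (F (t₂ - k * (r ^ 2 / m)) ⁻¹' B (t₂ - k * (r ^ 2 / m))) :=
        c1.measurable (hBm _ hs)
      refine (lift_meas hmB).trans ?_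
      have h3 : volume (F (t₂ - k * (r ^ 2 / m)) ⁻¹' B (t₂ - k * (r ^ 2 / m)))
          ≤ volume (B (t₂ - k * (r ^ 2 / m))) := by
        rw [← Measure.map_apply c1.measurable (hBm _ hs)]
        exact c2 _
      refine h3.trans ((hBv _ hs).trans ?_)
      have h4 : ∫⁻ τ in Ioo (t₂ - k * (r ^ 2 / m) - r ^ 2) (t₂ - k * (r ^ 2 / m)),
          ∫⁻ y in ball (0 : V) 3, ENNReal.ofReal (gsq (fun x => zt x • u τ x) y)
          ≤ ∫⁻ τ in Ioo (t₂ - k * (r ^ 2 / m) - r ^ 2) (t₂ - k * (r ^ 2 / m)),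
            ENNReal.ofReal 216 * ENNReal.ofReal (enstrophy (u τ)) := by
        refine setLIntegral_mono' measurableSet_Ioo fun τ hτ => ?_
        rw [← ENNReal.ofReal_mul (by norm_num)]
        have hτT : τ ∈ Ioo 0 T := ⟨by linarith [hτ.1, hs.1], by linarith [hτ.2, hs.2]⟩
        exact W221.NS.B.p_pere _ ⟨slice_smooth hsu hτT, hpu τ hτT⟩
      refine (mul_le_mul_right h4 _).trans ?_
      rw [lintegral_const_mul' _ _ ENNReal.ofReal_ne_top, ← mul_assoc,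
        ← ENNReal.ofReal_mul (by positivity)]
      refine mul_le_mul_left (ENNReal.ofReal_le_ofReal ?_) _
      linarith
  refine hmain.trans (mul_le_mul_left (ENNReal.ofReal_le_ofReal ?_) _)
  have : 0 ≤ (C + C ^ 2 * A ^ 2 + 1) * r ^ 2 := by positivity
  linarith

end Pool.Agent.TH305.LG
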