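import Pool.Agent.TH305.LG.Whole

/-!
Particle paths (helper305): periodic fields.
-/

set_option autoImplicit false

open MeasureTheory Set Metric Filter Topology
open scoped ContDiff ENNReal NNReal

namespace Pool.Agent.TH305.LG

open H459R3.NS W221.NS Pool.Agent.TH305.DR Pool.Agent.TH305.LW Pool.Agent.W349.MF

/-- The vector with integer coordinates. -/
def iv (n : K3) : V := fun i => (n i : ℝ)

/-- The half-open period cell. -/
def cell : Set V := univ.pi fun _ => Ico 0 1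

lemma per_iv {F : Type*} {f : V → F} (hf : Per f) (n : K3) (x : V) : f (x + iv n) = f x :=
  W398.MD.FLOWX.per_int hf n x

lemma iv_neg (n : K3) : iv (-n) = -iv n := by
  funext i
  simp [iv]

lemma per_iv' {F : Type*} {f : V → F} (hf : Per f) (n : K3) (x : V) : f (x - iv n) = f x := by
  have := per_iv hf (-n) x
  rwa [iv_neg, ← sub_eq_add_neg] at this

lemma meas_cell : MeasurableSet cell := MeasurableSet.univ_pi fun _ => measurableSet_Ico

lemma mem_cell {x : V} : x ∈ cell ↔ ∀ i, x i ∈ Ico (0 : ℝ) 1 := by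
  simp [cell]

lemma floor_cell (x : V) : x - iv (fun i => ⌊x i⌋) ∈ cell := by
  rw [mem_cell]
  intro i
  show x i - (⌊x i⌋ : ℝ) ∈ Ico (0 : ℝ) 1
  have h1 := Int.fract_nonneg (x i)
  have h2 := Int.fract_lt_one (x i)
  exact ⟨h1, h2⟩

lemma cell_unique {x : V} {n m : K3} (h1 : x - iv n ∈ cell) (h2 : x - iv m ∈ cell) : n = m := by
  funext i
  rw [mem_cell] at h1 h2
  have a := h1 i
  have b := h2 i
  have a1 : 0 ≤ x i - n i := a.1
  have a2 : x i - n i < 1 := a.2
  have b1 : 0 ≤ x i - m i := b.1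
  have b2 : x i - m i < 1 := b.2
  have c1 : ((n i : ℤ) : ℝ) < m i + 1 := by linarith
  have c2 : ((m i : ℤ) : ℝ) < n i + 1 := by linarith
  have d1 : n i < m i + 1 := by exact_mod_cast c1
  have d2 : m i < n i + 1 := by exact_mod_cast c2
  omega

lemma cell_norm {x : V} (hx : x ∈ cell) : ‖x‖ ≤ 1 := by
  rw [mem_cell] at hx
  rw [pi_norm_le_iff_of_nonneg zero_le_one]
  intro i
  rw [Real.norm_eq_abs, abs_le]
  have h2 := (hx i).1
  have h3 := (hx i).2
  constructor <;> linarith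

/-- Counting labels modulo translations. -/
lemma lift_meas {A : Set V} (hA : MeasurableSet A) :
    volume {a | a ∈ cell ∧ ∃ n : K3, a - iv n ∈ A} ≤ volume A := by
  have h1 : {a | a ∈ cell ∧ ∃ n : K3, a - iv n ∈ A}
      ⊆ ⋃ n : K3, {a | a ∈ cell ∧ a - iv n ∈ A} := by
    rintro a ⟨h, n, hn⟩
    exact mem_iUnion.2 ⟨n, h, hn⟩
  have h2 : ∀ n : K3, volume {a | a ∈ cell ∧ a - iv n ∈ A}
      = volume {b | b + iv n ∈ cell ∧ b ∈ A} := by
    intro n
    have h3 := measure_preimage_add_right (volume : Measure V) (-iv n)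
      {b | b + iv n ∈ cell ∧ b ∈ A}
    rw [← h3]
    congr 1
    ext a
    simp [sub_eq_add_neg]
  have h4 : ∀ n : K3, MeasurableSet {b | b + iv n ∈ cell ∧ b ∈ A} := by
    intro n
    exact ((measurable_id.add_const (iv n)) meas_cell).inter hA
  have h5 : Pairwise (Function.onFun Disjoint fun n : K3 => {b | b + iv n ∈ cell ∧ b ∈ A}) := by
    intro n m hnm
    rw [Function.onFun, Set.disjoint_left]
    rintro b ⟨hb, -⟩ ⟨hb', -⟩
    apply hnm
    have e : ∀ k : K3, b + iv k = b - iv (-k) := fun k => by rw [iv_neg, sub_neg_eq_add]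
    rw [e] at hb hb'
    have := cell_unique hb hb'
    exact neg_injective this
  calc volume {a | a ∈ cell ∧ ∃ n : K3, a - iv n ∈ A}
      ≤ volume (⋃ n : K3, {a | a ∈ cell ∧ a - iv n ∈ A}) := measure_mono h1
    _ ≤ ∑' n : K3, volume {a | a ∈ cell ∧ a - iv n ∈ A} := measure_iUnion_le _
    _ = ∑' n : K3, volume {b | b + iv n ∈ cell ∧ b ∈ A} := by simp_rw [h2]
    _ = volume (⋃ n : K3, {b | b + iv n ∈ cell ∧ b ∈ A}) := (measure_iUnion h5 h4).symm
    _ ≤ volume A := measure_mono (by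
        intro b hb
        obtain ⟨n, hn⟩ := mem_iUnion.1 hb
        exact hn.2)

/-- The boundary of the cube is negligible. -/
lemma cube_cell (S : Set V) : volume (S ∩ cube) ≤ volume (S ∩ cell) := by
  have h1 : (cell : Set V) =ᵐ[volume] cube := by
    have := Measure.univ_pi_Ico_ae_eq_Icc (μ := fun _ : Fin 3 => (volume : Measure ℝ))
      (f := fun _ => (0 : ℝ)) (g := fun _ => (1 : ℝ))
    exact this
  have h2 : volume (cube \ cell) = 0 := (ae_eq_set.1 h1).2
  calc volume (S ∩ cube) ≤ volume ((S ∩ cell) ∪ (cube \ cell)) := measure_mono (by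
        rintro x ⟨hx, hc⟩
        by_cases h : x ∈ cell
        · exact Or.inl ⟨hx, h⟩
        · exact Or.inr ⟨hc, h⟩)
    _ ≤ volume (S ∩ cell) + volume (cube \ cell) := measure_union_le _ _
    _ = volume (S ∩ cell) := by rw [h2, add_zero]

lemma per_SS (n : ℕ) : ∀ f : V → ℝ, Per f → Per (SS n f) := by
  induction n with
  | zero =>
    intro f hf i x
    rw [SS_zero, SS_zero, hf i x]
  | succ n ih =>
    intro f hf i x
    rw [SS_succ, SS_succ]
    exact Finset.sum_congr rfl fun j _ => ih _ (H459R3.NS.Per.pd hf j) i x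

lemma per_ST (n : ℕ) {v : V → V} (hv : Per v) : Per (ST n v) := by
  intro i x
  unfold DR.ST
  refine Finset.sum_congr rfl fun q _ => per_SS n _ ?_ i x
  have hc : ∀ j : Fin 3, Per (fun y => v y j) := fun j i x => by
    show v _ j = v x j
    rw [hv i x]
  intro i x
  unfold Om
  rw [H459R3.NS.Per.pd (hc q.2) q.1 i x, H459R3.NS.Per.pd (hc q.1) q.2 i x]

/-- A smooth periodic field is bounded with its derivatives on compact time intervals. -/
lemma per_bdd {T : ℝ} {u : ℝ → V → V}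
    (hu : ContDiffOn ℝ ∞ (fun z : ℝ × V => u z.1 z.2) (Ioo 0 T ×ˢ univ))
    (hp : ∀ t ∈ Ioo 0 T, Per (u t)) {a b : ℝ} (ha : 0 < a) (hb : b < T) :
    ∃ M : ℝ, ∀ t ∈ Icc a b, ∀ x, ‖u t x‖ ≤ M ∧ ∀ i j, |pd j (fun y => u t y i) x| ≤ M := by
  have hopen : IsOpen (Ioo 0 T ×ˢ (univ : Set V)) := isOpen_Ioo.prod isOpen_univ
  obtain ⟨F, hF⟩ : ∃ F : ℝ × V → V, F = fun z => u z.1 z.2 := ⟨_, rfl⟩
  rw [← hF] at hu
  have hK : IsCompact (Icc a b ×ˢ (cube : Set V)) := isCompact_Icc.prod isCompact_Icc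
  have hsub : Icc a b ⊆ Ioo 0 T := fun t ht => ⟨ha.trans_le ht.1, ht.2.trans_lt hb⟩
  have hKs : Icc a b ×ˢ (cube : Set V) ⊆ Ioo 0 T ×ˢ univ := fun z hz => ⟨hsub hz.1, trivial⟩
  obtain ⟨M₀, hM₀⟩ := hK.exists_bound_of_continuousOn (hu.continuousOn.mono hKs)
  have hfc : ContinuousOn (fderiv ℝ F) (Ioo 0 T ×ˢ univ) :=
    hu.continuousOn_fderiv_of_isOpen hopen (by norm_cast)
  obtain ⟨M₁, hM₁⟩ := hK.exists_bound_of_continuousOn (hfc.mono hKs)
  have hFd : ∀ t ∈ Ioo 0 T, ∀ x : V, HasFDerivAt F (fderiv ℝ F (t, x)) (t, x) := by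
    intro t ht x
    have h1 : (t, x) ∈ Ioo 0 T ×ˢ (univ : Set V) := ⟨ht, trivial⟩
    exact ((hu.differentiableOn (by norm_cast)) _ h1).differentiableAt
      (hopen.mem_nhds h1) |>.hasFDerivAt
  have hUd : ∀ t ∈ Ioo 0 T, ∀ x : V, HasFDerivAt (u t)
      ((fderiv ℝ F (t, x)).comp (ContinuousLinearMap.inr ℝ ℝ V)) x := by
    intro t ht x
    have h2 := (hFd t ht x).comp x (hasFDerivAt_prodMk_right t x)
    rw [hF] at h2 ⊢
    exact h2
  refine ⟨max M₀ M₁, fun t ht x => ⟨?_, fun i j => ?_⟩⟩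
  · obtain ⟨y, hy, hxy⟩ := W398.MD.FLOWX.per_cube (hp t (hsub ht)) x
    rw [hxy]
    have := hM₀ (t, y) ⟨ht, hy⟩
    rw [hF] at this
    exact this.trans (le_max_left _ _)
  · have hc : Per (fun y => u t y i) := fun k x => by
      show u t _ i = u t x i
      rw [hp t (hsub ht) k x]
    obtain ⟨y, hy, hxy⟩ := W398.MD.FLOWX.per_cube (H459R3.NS.Per.pd hc j) x
    rw [hxy]
    have h2 := hasFDerivAt_pi'.1 (hUd t (hsub ht) y) i
    unfold pd
    rw [h2.fderiv]
    show |((fderiv ℝ F (t, y)) (0, Pi.single j 1)) i| ≤ max M₀ M₁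
    rw [← Real.norm_eq_abs]
    refine (norm_le_pi_norm _ i).trans ?_
    refine ((fderiv ℝ F (t, y)).le_opNorm _).trans ?_
    have h3 : ‖((0 : ℝ), (Pi.single j 1 : V))‖ ≤ 1 := by
      rw [Prod.norm_mk, norm_zero, Pi.norm_single]
      simp
    refine (mul_le_of_le_one_right (norm_nonneg _) h3).trans ?_
    exact (hM₁ (t, y) ⟨ht, hy⟩).trans (le_max_right _ _)

end Pool.Agent.TH305.LG
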