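import Pool.Agent.TH305.DR.Loc

/-!
Particle paths (helper305): the velocity in the moving frame, and paths which stay together.
-/

set_option autoImplicit false

open MeasureTheory Set Metric Filter Topology
open scoped ContDiff

namespace Pool.Agent.TH305.LG

open H459R3.NS W221.NS Pool.Agent.TH305.DR

lemma sqrt_le_lin {X l : ℝ} (hX : 0 ≤ X) (hl : 0 < l) : √X ≤ l + X / l := by
  have h1 : √X * √X = X := Real.mul_self_sqrt hX
  have h2 : 0 ≤ √X := Real.sqrt_nonneg X
  have h3 : l * √X ≤ l * (l + X / l) := by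
    have : l * (l + X / l) = l ^ 2 + X := by field_simp
    rw [this]
    nlinarith [sq_nonneg (l - √X)]
  exact le_of_mul_le_mul_left h3 hl

/-- The velocity in the moving frame. -/
theorem loc_v : ∃ ε : ℝ, 0 < ε ∧ ∃ K : ℝ, 0 < K ∧
    ∀ (v : ℝ → V → V) (q : ℝ → V → ℝ), Loc2 v q →
      IntegrableOn (fun t => B2 0 8 (v t)) (Ioo (-1) 0) →
      ∫ t in Ioo (-1) 0, B2 0 8 (v t) ≤ ε →
      ∀ t ∈ Ioo (-1 / 16 : ℝ) 0, ∀ x ∈ ball (0 : V) (1 / 4), ∀ l : ℝ, 0 < l →
        ‖v t x‖ ≤ K + l + K * B2 0 8 (v t) / l := by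
  obtain ⟨g, C0, hC0, hg⟩ := W221.NS.B.p_green
  obtain ⟨C', hC', H⟩ := W221.NS.B.p_hyp g C0 hg
  obtain ⟨ε, CL, hε, hCL, L⟩ := W221.NS.B.p_loc2
  refine ⟨ε / C', by positivity, CL + C', by positivity, fun v q hL hint hsmall t ht x hx l hl => ?_⟩
  have hle : C' * ∫ t in Ioo (-1) 0, B2 0 8 (v t) ≤ ε := by
    calc C' * ∫ t in Ioo (-1) 0, B2 0 8 (v t) ≤ C' * (ε / C') := by gcongr
      _ = ε := by field_simp
  have hH := H v q hL ε hint hle
  have hW := L v _ _ hH t ht x hx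
  obtain ⟨-, hWs, hSl, hGi, hGe⟩ := hH
  obtain ⟨P, hP⟩ := hSl t (tIoo ht)
  have hd := hP.dD x (ball_subset_ball (by norm_num) hx)
  have hB0 : 0 ≤ B2 0 8 (v t) := integral_nonneg fun x =>
    Finset.sum_nonneg fun i _ => Finset.sum_nonneg fun j _ => sq_nonneg _
  have hX : 0 ≤ C' * B2 0 8 (v t) := by positivity
  have hs := sqrt_le_lin hX hl
  rw [pi_norm_le_iff_of_nonneg (by positivity)]
  intro i
  rw [Real.norm_eq_abs]
  have h1 : |v t x i| ≤ |v t x i - TT g (v t) x i| + |TT g (v t) x i| := by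
    have : v t x i = (v t x i - TT g (v t) x i) + TT g (v t) x i := by ring
    conv_lhs => rw [this]
    exact abs_add_le _ _
  have h2 := hd i
  have h3 := hW i
  have h4 : C' * B2 0 8 (v t) / l ≤ (CL + C') * B2 0 8 (v t) / l := by
    gcongr
    linarith
  linarith

/-- Two paths which start together stay together if their speeds are close as long as the paths
are. -/
theorem stay {ξ Y : ℝ → V} {s h ρ : ℝ} (hh : 0 < h) (hρ : 0 < ρ) {g : ℝ → ℝ}
    (hg : ContinuousOn g (Icc (s - h) s)) (hg0 : ∀ τ ∈ Icc (s - h) s, 0 ≤ g τ)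
    (hξ : ContinuousOn ξ (Icc (s - h) s)) (hY : ContinuousOn Y (Icc (s - h) s)) (h0 : ξ s = Y s)
    (hd : ∀ τ ∈ Ioo (s - h) s,
      ∃ w w' : V, HasDerivAt ξ w τ ∧ HasDerivAt Y w' τ ∧ (‖ξ τ - Y τ‖ < ρ → ‖w - w'‖ ≤ g τ))
    (hI : ∫ τ in (s - h)..s, g τ ≤ ρ / 2) : ∀ τ ∈ Ioc (s - h) s, ‖ξ τ - Y τ‖ ≤ ρ / 2 := by
  classical
  obtain ⟨f, hf⟩ : ∃ f : ℝ → V, f = fun t => ξ (s - t) - Y (s - t) := ⟨_, rfl⟩
  have hrev : ∀ {a b : ℝ}, 0 ≤ a → b ≤ h → MapsTo (fun t : ℝ => s - t) (Icc a b) (Icc (s - h) s) := by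
    intro a b ha hb t ht
    simp only [mem_Icc] at ht ⊢
    constructor <;> linarith [ht.1, ht.2]
  have hcs : Continuous (fun t : ℝ => s - t) := by fun_prop
  have hfc : ContinuousOn f (Icc 0 h) := by
    rw [hf]
    exact (hξ.comp hcs.continuousOn (hrev le_rfl le_rfl)).sub
      (hY.comp hcs.continuousOn (hrev le_rfl le_rfl))
  have hf0 : f 0 = 0 := by
    rw [hf]
    simp [h0]
  have hgc : ContinuousOn (fun t => g (s - t)) (Icc 0 h) :=
    hg.comp hcs.continuousOn (hrev le_rfl le_rfl)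
  -- choose the derivatives
  have hch : ∀ t : ℝ, ∃ d : V, t ∈ Ioo 0 h →
      HasDerivAt f d t ∧ (‖f t‖ < ρ → ‖d‖ ≤ g (s - t)) := by
    intro t
    by_cases h1 : t ∈ Ioo 0 h
    · have ht := h1
      obtain ⟨w, w', hw, hw', hle⟩ := hd (s - t) ⟨by linarith [ht.2], by linarith [ht.1]⟩
      refine ⟨-(w - w'), fun _ => ⟨?_, fun hlt => by
        rw [hf] at hlt
        rw [norm_neg]
        exact hle hlt⟩⟩
      rw [hf]
      have e1 : HasDerivAt (fun t : ℝ => s - t) (-1) t := by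
        simpa using (hasDerivAt_id t).const_sub s
      have e2 := hw.scomp t e1
      have e3 := hw'.scomp t e1
      have e4 := e2.sub e3
      have e5 : (-1 : ℝ) • w - (-1 : ℝ) • w' = -(w - w') := by
        rw [neg_one_smul, neg_one_smul]
        abel
      rw [e5] at e4
      exact e4
    · exact ⟨0, fun h2 => absurd h2 h1⟩
  choose f' hf' using hch
  -- the main estimate
  have main : ∀ t0 t1 η : ℝ, 0 < t0 → t0 < t1 → t1 < h → 0 < η → ‖f t0‖ + ρ / 2 + η * h < ρ →
      ‖f t1‖ ≤ ‖f t0‖ + ρ / 2 + η * h := by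
    intro t0 t1 η ht0 ht01 ht1 hη hlt
    obtain ⟨G, hG⟩ : ∃ G : ℝ → ℝ, G = fun t => g (s - t) + η := ⟨_, rfl⟩
    have hsub : Icc t0 t1 ⊆ Icc 0 h := Icc_subset_Icc ht0.le ht1.le
    have hGc : ContinuousOn G (Icc t0 t1) := by
      rw [hG]
      exact (hgc.mono hsub).add continuousOn_const
    have hGi : ∀ t ∈ Icc t0 t1, IntervalIntegrable G volume t0 t := by
      intro t ht
      apply ContinuousOn.intervalIntegrable
      rw [uIcc_of_le ht.1]
      exact hGc.mono (Icc_subset_Icc_right ht.2)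
    obtain ⟨B, hB⟩ : ∃ B : ℝ → ℝ, B = fun t => ‖f t0‖ + ∫ x in t0..t, G x := ⟨_, rfl⟩
    have hBle : ∀ t ∈ Icc t0 t1, B t ≤ ‖f t0‖ + ρ / 2 + η * h := by
      intro t ht
      rw [hB]
      have i1 : IntervalIntegrable (fun x => g (s - x)) volume t0 t := by
        apply ContinuousOn.intervalIntegrable
        rw [uIcc_of_le ht.1]
        exact hgc.mono (Icc_subset_Icc ht0.le (ht.2.trans ht1.le))
      have e1 : ∫ x in t0..t, G x = (∫ x in t0..t, g (s - x)) + η * (t - t0) := by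
        rw [hG, intervalIntegral.integral_add i1 intervalIntegrable_const,
          intervalIntegral.integral_const, smul_eq_mul, mul_comm]
      have e2 : ∫ x in t0..t, g (s - x) = ∫ x in (s - t)..(s - t0), g x :=
        intervalIntegral.integral_comp_sub_left (fun x => g x) s
      have e3 : ∫ x in (s - t)..(s - t0), g x ≤ ∫ x in (s - h)..s, g x := by
        apply intervalIntegral.integral_mono_interval (by linarith [ht.2]) (by linarith [ht.1])
          (by linarith)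
        · filter_upwards [ae_restrict_mem measurableSet_Ioc] with x hx
          exact hg0 x ⟨hx.1.le, hx.2⟩
        · apply ContinuousOn.intervalIntegrable
          rw [uIcc_of_le (by linarith)]
          exact hg
      have e4 : η * (t - t0) ≤ η * h := by
        apply mul_le_mul_of_nonneg_left _ hη.le
        linarith [ht.2]
      simp only
      linarith
    have key := image_norm_le_of_norm_deriv_right_lt_deriv_boundary' (f := f) (f' := f') (B := B)
      (B' := G) (a := t0) (b := t1) (hfc.mono hsub) ?_ ?_ ?_ ?_ ?_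
    · exact (key ⟨ht01.le, le_rfl⟩).trans (hBle t1 ⟨ht01.le, le_rfl⟩)
    · intro x hx
      exact ((hf' x ⟨ht0.trans_le hx.1, hx.2.trans ht1⟩).1).hasDerivWithinAt
    · rw [hB]
      simp
    · rw [hB]
      apply continuousOn_const.add
      have := intervalIntegral.continuousOn_primitive_interval'
        (hGi t1 ⟨ht01.le, le_rfl⟩) (left_mem_uIcc)
      rwa [uIcc_of_le ht01.le] at this
    · intro x hx
      rw [hB]
      apply HasDerivWithinAt.const_add
      have hx' : x ∈ Icc t0 t1 := ⟨hx.1, hx.2.le⟩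
      have hxm : x ∈ Ioo 0 h := ⟨ht0.trans_le hx.1, hx.2.trans ht1⟩
      have hGco : ContinuousOn G (Ioo 0 h) := by
        rw [hG]
        exact (hgc.mono Ioo_subset_Icc_self).add continuousOn_const
      exact (intervalIntegral.integral_hasDerivAt_right (hGi x hx')
        (hGco.stronglyMeasurableAtFilter isOpen_Ioo x hxm)
        (hGco.continuousAt (Ioo_mem_nhds hxm.1 hxm.2))).hasDerivWithinAt
    · intro x hx hxB
      have hx' : x ∈ Icc t0 t1 := ⟨hx.1, hx.2.le⟩
      have h1 : ‖f x‖ < ρ := by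
        rw [hxB]
        exact (hBle x hx').trans_lt hlt
      have h2 := (hf' x ⟨ht0.trans_le hx.1, hx.2.trans ht1⟩).2 h1
      rw [hG]
      simp only
      linarith
  -- the limit `t0 → 0`, `η → 0`
  intro τ hτ
  rcases eq_or_lt_of_le hτ.2 with h1 | h1
  · rw [h1, h0, sub_self, norm_zero]
    positivity
  have ht1 : 0 < s - τ ∧ s - τ < h := ⟨by linarith, by linarith [hτ.1]⟩
  have hfτ : ‖ξ τ - Y τ‖ = ‖f (s - τ)‖ := by
    rw [hf]
    simp
  rw [hfτ]
  apply le_of_forall_pos_le_add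
  intro e he
  obtain ⟨e', he', he1, he2⟩ : ∃ e' : ℝ, 0 < e' ∧ e' ≤ e ∧ e' < ρ / 2 :=
    ⟨min e (ρ / 4), lt_min he (by positivity), min_le_left _ _,
      (min_le_right _ _).trans_lt (by linarith)⟩
  have hη : 0 < e' / 2 / h := by positivity
  have hfc0 : Tendsto (fun t => ‖f t‖) (𝓝[>] 0) (𝓝 0) := by
    have h2 : ContinuousWithinAt f (Icc 0 h) 0 := hfc 0 ⟨le_rfl, hh.le⟩
    have h3 : ContinuousWithinAt f (Ioi 0) 0 := by
      apply h2.mono_of_mem_nhdsWithin
      exact mem_of_superset (Ioo_mem_nhdsGT hh) Ioo_subset_Icc_self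
    have h4 : Tendsto f (𝓝[>] 0) (𝓝 (f 0)) := h3
    rw [hf0] at h4
    simpa using h4.norm
  have hev : ∀ᶠ t in 𝓝[>] (0 : ℝ), ‖f t‖ < e' / 2 ∧ t ∈ Ioo 0 (s - τ) :=
    (hfc0.eventually (gt_mem_nhds (by positivity : (0 : ℝ) < e' / 2))).and
      (Ioo_mem_nhdsGT ht1.1)
  obtain ⟨t0, h2, h3⟩ := hev.exists
  have h4 : e' / 2 / h * h = e' / 2 := by field_simp
  have h5 := main t0 (s - τ) (e' / 2 / h) h3.1 h3.2 ht1.2 hη (by rw [h4]; linarith)
  rw [h4] at h5
  linarith

end Pool.Agent.TH305.LG
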