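import Pool.Agent.TH305.LG.Stay
import Pool.Agent.TH305.DR.Fix

/-!
Particle paths (helper305): regularity along the particle path.
-/

set_option autoImplicit false

open MeasureTheory Set Metric Filter Topology
open scoped ContDiff ENNReal

namespace Pool.Agent.TH305.LG

open H459R3.NS W221.NS Pool.Agent.TH305.DR Pool.Agent.TH305.LW

/-- The relative velocity in physical variables. -/
lemma rel_vel {u : ℝ → V → V} {r s τ : ℝ} (hr : 0 < r) {Y : ℝ → V} {z x : V}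
    (hd : HasDerivAt Y (mol r u τ (Y τ)) τ) (hz : x = Y τ + r • z) :
    u τ x - mol r u τ (Y τ) = r⁻¹ • frv r s Y u ((τ - s) / r ^ 2) z := by
  have hr2 : r ^ 2 ≠ 0 := by positivity
  have e1 : s + r ^ 2 * ((τ - s) / r ^ 2) = τ := by
    field_simp
    ring
  funext i
  have hd' : HasDerivAt (fun τ => Y τ i) (mol r u τ (Y τ) i) τ := (hasDerivAt_pi.1 hd) i
  show u τ x i - mol r u τ (Y τ) i = r⁻¹ * frv r s Y u ((τ - s) / r ^ 2) z i
  unfold frv
  rw [e1, hd'.deriv, hz, ← mul_assoc, inv_mul_cancel₀ hr.ne', one_mul]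

theorem tube : ∃ ε : ℝ, 0 < ε ∧ ∃ (δ : ℝ) (C : ℕ → ℝ), 0 < δ ∧ δ ≤ 1 / 32 ∧ (∀ n, 0 < C n) ∧
    ∀ (T κ E : ℝ) (O : Set V) (u : ℝ → V → V) (p : ℝ → V → ℝ), LSol T κ E O u p →
      ∀ r s : ℝ, 0 < r → r ^ 2 < s → s < T → ∀ Y : ℝ → V, Pth r u (s - r ^ 2) s Y →
      (∀ t ∈ Ioo (s - r ^ 2) s, ball (Y t) (8 * r) ⊆ O) → ms u r Y (s - r ^ 2) s ≤ ε →
      ∀ h : ℝ, 0 < h → h ≤ δ * r ^ 2 → ∀ ξ : ℝ → V, ContinuousOn ξ (Icc (s - h) s) → ξ s = Y s →
      (∀ τ ∈ Ioo (s - h) s, ∃ w, HasDerivAt ξ w τ ∧ (ξ τ ∈ O → w = u τ (ξ τ))) →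
      ∀ τ ∈ Ioo (s - h) s, ∀ y ∈ ball (ξ τ) (r / 32), y ∈ O ∧ ∀ n,
        r ^ (2 * n + 4) * ST n (u τ) y ≤ C n := by
  obtain ⟨ε1, hε1, C, hC, hloc⟩ := loc_all
  obtain ⟨ε2, hε2, K, hK, hlv⟩ := loc_v
  obtain ⟨ε, hε, hle1, hle2⟩ : ∃ ε : ℝ, 0 < ε ∧ ε ≤ ε1 ∧ ε ≤ ε2 :=
    ⟨min ε1 ε2, lt_min hε1 hε2, min_le_left _ _, min_le_right _ _⟩
  obtain ⟨l, hl⟩ : ∃ l : ℝ, l = 64 * K * ε + 1 := ⟨_, rfl⟩
  have hl0 : 0 < l := by rw [hl]; positivity
  have hKl : K / l * ε ≤ 1 / 64 := by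
    rw [div_mul_eq_mul_div, div_le_iff₀ hl0]
    linarith
  obtain ⟨δ, hδ0, hδ1, hδ2⟩ : ∃ δ : ℝ, 0 < δ ∧ δ ≤ 1 / 32 ∧ (K + l) * δ ≤ 1 / 64 := by
    refine ⟨min (1 / 32) (1 / (64 * (K + l))), lt_min (by norm_num) (by positivity),
      min_le_left _ _, ?_⟩
    calc (K + l) * min (1 / 32) (1 / (64 * (K + l))) ≤ (K + l) * (1 / (64 * (K + l))) := by
          gcongr
          exact min_le_right _ _
      _ = 1 / 64 := by field_simp
  refine ⟨ε, hε, δ, C, hδ0, hδ1, hC, ?_⟩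
  intro T κ E O u p hL r s hr hrs hsT Y hPth hball hms h hh0 hh ξ hξ hξs hξd
  have hu := hL.smooth_u
  have hr2 : 0 < r ^ 2 := by positivity
  have hα : 0 < s - r ^ 2 := by linarith
  have hhr : h ≤ r ^ 2 / 32 := by
    calc h ≤ δ * r ^ 2 := hh
      _ ≤ 1 / 32 * r ^ 2 := by gcongr
      _ = r ^ 2 / 32 := by ring
  have hL2 := W221.NS.B.p_frame2 T κ E O u p hL r s hr hrs hsT Y hPth.smooth
    (fun t ht => hPth.ode t ht) hball
  have hInt := frame_int (r := r) (s := s) hu hr hα le_rfl le_rfl hsT hPth.cont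
  have hle : ∫ t in Ioo (-1) 0, B2 0 8 (frv r s Y u t) ≤ ε := by
    rw [ms_eq hu hr hα hsT Y]
    exact hms
  have hall := hloc _ _ hL2 hInt (hle.trans hle1)
  have hvel := hlv _ _ hL2 hInt (hle.trans hle2)
  have htm : ∀ τ ∈ Ioo (s - h) s, (τ - s) / r ^ 2 ∈ Ioo (-1 / 32 : ℝ) 0 := by
    intro τ hτ
    constructor
    · rw [lt_div_iff₀ hr2]
      linarith [hτ.1]
    · exact div_neg_of_neg_of_pos (by linarith [hτ.2]) hr2
  have hτm : ∀ τ ∈ Ioo (s - h) s, τ ∈ Ioo (s - r ^ 2) s := fun τ hτ => ⟨by linarith [hτ.1], hτ.2⟩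
  have e1 : ∀ τ : ℝ, s + r ^ 2 * ((τ - s) / r ^ 2) = τ := by
    intro τ
    field_simp
    ring
  -- the relative speed
  obtain ⟨g, hg⟩ : ∃ g : ℝ → ℝ, g = fun τ => r⁻¹ * (K + l) + K / l * B2 (Y τ) (8 * r) (u τ) :=
    ⟨_, rfl⟩
  have hB0 : ∀ τ, 0 ≤ B2 (Y τ) (8 * r) (u τ) := fun τ => integral_nonneg fun x =>
    Finset.sum_nonneg fun i _ => Finset.sum_nonneg fun j _ => sq_nonneg _
  have hBc : ContinuousOn (fun τ => B2 (Y τ) (8 * r) (u τ)) (Icc (s - r ^ 2) s) :=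
    mass_cont hu hα hsT (by linarith) hPth.cont (8 * r)
  have hgc : ContinuousOn g (Icc (s - h) s) := by
    rw [hg]
    exact continuousOn_const.add (continuousOn_const.mul
      (hBc.mono (Icc_subset_Icc_left (by linarith))))
  have hgI : ∫ τ in (s - h)..s, g τ ≤ r / 16 / 2 := by
    have i1 : IntervalIntegrable (fun τ => K / l * B2 (Y τ) (8 * r) (u τ)) volume (s - h) s := by
      apply ContinuousOn.intervalIntegrable
      rw [uIcc_of_le (by linarith)]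
      exact continuousOn_const.mul (hBc.mono (Icc_subset_Icc_left (by linarith)))
    have i2 : IntervalIntegrable (fun τ => B2 (Y τ) (8 * r) (u τ)) volume (s - r ^ 2) s := by
      apply ContinuousOn.intervalIntegrable
      rw [uIcc_of_le (by linarith)]
      exact hBc
    have e2 : ∫ τ in (s - h)..s, g τ = h * (r⁻¹ * (K + l))
        + K / l * ∫ τ in (s - h)..s, B2 (Y τ) (8 * r) (u τ) := by
      rw [hg, intervalIntegral.integral_add intervalIntegrable_const i1,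
        intervalIntegral.integral_const, intervalIntegral.integral_const_mul, smul_eq_mul]
      congr 2
      ring
    have e3 : ∫ τ in (s - h)..s, B2 (Y τ) (8 * r) (u τ)
        ≤ ∫ τ in (s - r ^ 2)..s, B2 (Y τ) (8 * r) (u τ) := by
      apply intervalIntegral.integral_mono_interval (by linarith) (by linarith) le_rfl
        (Eventually.of_forall fun τ => hB0 τ) i2
    have e4 : ∫ τ in (s - r ^ 2)..s, B2 (Y τ) (8 * r) (u τ) ≤ r * ε := by
      have h1 : r⁻¹ * ∫ τ in (s - r ^ 2)..s, B2 (Y τ) (8 * r) (u τ) ≤ ε := hms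
      rw [inv_mul_le_iff₀ hr] at h1
      exact h1
    have e5 : h * (r⁻¹ * (K + l)) ≤ r / 64 := by
      calc h * (r⁻¹ * (K + l)) ≤ δ * r ^ 2 * (r⁻¹ * (K + l)) := by gcongr
        _ = r * ((K + l) * δ) := by field_simp
        _ ≤ r * (1 / 64) := by gcongr
        _ = r / 64 := by ring
    have e6 : K / l * ∫ τ in (s - h)..s, B2 (Y τ) (8 * r) (u τ) ≤ r / 64 := by
      calc K / l * ∫ τ in (s - h)..s, B2 (Y τ) (8 * r) (u τ) ≤ K / l * (r * ε) := by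
            gcongr
            exact e3.trans e4
        _ = r * (K / l * ε) := by ring
        _ ≤ r * (1 / 64) := by gcongr
        _ = r / 64 := by ring
    rw [e2]
    linarith
  have hz : ∀ τ, ∀ x : V, x = Y τ + r • (r⁻¹ • (x - Y τ)) := by
    intro τ x
    rw [smul_smul, mul_inv_cancel₀ hr.ne', one_smul, add_sub_cancel]
  have hzb : ∀ τ, ∀ x : V, ‖x - Y τ‖ < r / 16 → r⁻¹ • (x - Y τ) ∈ ball (0 : V) (1 / 16) := by
    intro τ x hx
    rw [mem_ball_zero_iff, norm_smul, Real.norm_eq_abs, abs_of_pos (inv_pos.2 hr)]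
    calc r⁻¹ * ‖x - Y τ‖ < r⁻¹ * (r / 16) := by gcongr
      _ = 1 / 16 := by field_simp
  have hstay := stay (ξ := ξ) (Y := Y) (s := s) (h := h) (ρ := r / 16) hh0 (by positivity) hgc
    (fun τ _ => by
      rw [hg]
      have := hB0 τ
      positivity) hξ (hPth.cont.mono (Icc_subset_Icc_left (by linarith))) hξs ?_ hgI
  · intro τ hτ y hy
    have h1 := hstay τ ⟨hτ.1, hτ.2.le⟩
    rw [mem_ball, dist_eq_norm] at hy
    have h2 : ‖y - Y τ‖ < r / 16 := by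
      have : y - Y τ = (y - ξ τ) + (ξ τ - Y τ) := by abel
      rw [this]
      refine (norm_add_le _ _).trans_lt ?_
      linarith
    refine ⟨hball τ (hτm τ hτ) ?_, fun n => ?_⟩
    · rw [mem_ball, dist_eq_norm]
      linarith
    · obtain ⟨a1, -⟩ := hall n _ (htm τ hτ) _ (hzb τ y h2)
      have hv : ContDiff ℝ ∞ (u (s + r ^ 2 * ((τ - s) / r ^ 2))) := by
        rw [e1]
        exact W382.ME.cd_slice hu ⟨by linarith [(hτm τ hτ).1], hτ.2.trans hsT⟩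
      rw [ST_frv n hv, e1, ← hz τ y] at a1
      exact a1
  · intro τ hτ
    obtain ⟨w, hw, hwO⟩ := hξd τ hτ
    have hYd := hPth.ode τ (hτm τ hτ)
    refine ⟨w, mol r u τ (Y τ), hw, hYd, fun hlt => ?_⟩
    have hO : ξ τ ∈ O := by
      apply hball τ (hτm τ hτ)
      rw [mem_ball, dist_eq_norm]
      linarith
    rw [hwO hO, rel_vel (s := s) hr hYd (hz τ (ξ τ)), norm_smul, Real.norm_eq_abs,
      abs_of_pos (inv_pos.2 hr)]
    have ht := htm τ hτ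
    have h3 := hvel ((τ - s) / r ^ 2) ⟨by linarith [ht.1], ht.2⟩ (r⁻¹ • (ξ τ - Y τ))
      (ball_subset_ball (by norm_num) (hzb τ (ξ τ) hlt)) l hl0
    have hv : ContDiff ℝ ∞ (u (s + r ^ 2 * ((τ - s) / r ^ 2))) := by
      rw [e1]
      exact W382.ME.cd_slice hu ⟨by linarith [(hτm τ hτ).1], hτ.2.trans hsT⟩
    have h4 := B2_frv_a (R := 8) (X := Y) hr 0 hv
    rw [e1, smul_zero, add_zero, mul_comm r 8] at h4
    rw [h4] at h3
    rw [hg]
    calc r⁻¹ * ‖frv r s Y u ((τ - s) / r ^ 2) (r⁻¹ • (ξ τ - Y τ))‖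
        ≤ r⁻¹ * (K + l + K * (r * B2 (Y τ) (8 * r) (u τ)) / l) := by gcongr
      _ = r⁻¹ * (K + l) + K / l * B2 (Y τ) (8 * r) (u τ) := by
        field_simp

end Pool.Agent.TH305.LG
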