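import Pool.Agent.TH305.LG.Win
import Pool.Agent.TH305.DR.Fin3

/-!
Particle paths (helper305): solutions in the whole space, viscosity one.
-/

set_option autoImplicit false

open MeasureTheory Set Metric Filter Topology
open scoped ContDiff ENNReal NNReal

namespace Pool.Agent.TH305.LG

open H459R3.NS W221.NS Pool.Agent.TH305.DR Pool.Agent.TH305.LW Pool.Agent.W349.MF

/-- The bounds on one window. -/
lemma win_pt {r : ℝ} (hr : 0 < r) {m : ℕ} (hm : 0 < m) {K : ℕ → ℝ} {O : Set V}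
    {u w : ℝ → V → V} {x : V} {s t₁ t₂ t : ℝ}
    (hw : ∀ τ ∈ Ioo t₁ t₂, ∀ y ∈ O, w τ y = u τ y) (hO : ball x (r / 16) ⊆ O)
    (H1 : ∀ y ∈ ball x (r / 16), ∀ n, r ^ (2 * n + 4) * ST n (u s) y ≤ K n)
    (H2 : ∀ h : ℝ, 0 < h → h * m ≤ r ^ 2 → ∀ ξ : ℝ → V, ContinuousOn ξ (Icc (s - h) s) →
      ξ s = x → (∀ τ ∈ Ioo (s - h) s, ∃ w, HasDerivAt ξ w τ ∧ (ξ τ ∈ O → w = u τ (ξ τ))) →
      ∀ τ ∈ Ioo (s - h) s, ∀ y ∈ ball (ξ τ) (r / 32), y ∈ O ∧ ∀ n,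
        r ^ (2 * n + 4) * ST n (u τ) y ≤ K n)
    {ξ : ℝ → V} (hξ : Traj w t₁ t₂ ξ) (hx : ξ s = x) (hs : s ≤ t₂) (ht1 : t₁ < t) (hts : t ≤ s)
    (hst : s - r ^ 2 / m < t) : ∀ y ∈ ball (ξ t) (r / 32), y ∈ O ∧ ∀ n,
      r ^ (2 * n + 4) * ST n (u t) y ≤ K n := by
  have hm0 : (0 : ℝ) < m := by exact_mod_cast hm
  rcases eq_or_lt_of_le hts with h | h
  · intro y hy
    rw [h, hx] at hy
    have hy' : y ∈ ball x (r / 16) := ball_subset_ball (by linarith) hy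
    rw [h]
    exact ⟨hO hy', H1 y hy'⟩
  · obtain ⟨d, hd0, hd1, hd2, hd3⟩ : ∃ d : ℝ, 0 < d ∧ d ≤ r ^ 2 / m ∧ t₁ ≤ s - d ∧ s - d < t := by
      refine ⟨min (r ^ 2 / m) (s - t₁), lt_min (by positivity) (by linarith), min_le_left _ _, ?_,
        ?_⟩
      · have := min_le_right (r ^ 2 / m) (s - t₁)
        linarith
      · rcases min_choice (r ^ 2 / m) (s - t₁) with h' | h' <;> rw [h'] <;> linarith
    refine H2 d hd0 ?_ ξ (hξ.cont.mono (Icc_subset_Icc hd2 hs)) hx (fun τ hτ => ?_) t ⟨hd3, h⟩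
    · rw [le_div_iff₀ hm0] at hd1
      exact hd1
    · have hτ' : τ ∈ Ioo t₁ t₂ := ⟨hd2.trans_lt hτ.1, hτ.2.trans_le hs⟩
      exact ⟨_, hξ.ode τ hτ', fun h => hw τ hτ' _ h⟩

lemma osol_lsol {T E : ℝ} {u : ℝ → V → V} {p : ℝ → V → ℝ} (hS : OSol 1 T E univ u p) :
    LSol T 0 E univ u p := by
  have hdv : ∀ t ∈ Ioo 0 T, ∀ x, dv (u t) x = 0 := fun t ht x => hS.divfree t ht x (mem_univ x)
  exact
    { openO := isOpen_univ
      smooth_u := hS.smooth_u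
      smooth_p := hS.smooth_p
      divfree := fun t ht x _ => hdv t ht x
      momentum := fun t ht x _ i => by
        have := hS.momentum t ht x (mem_univ x) i
        rw [one_mul] at this
        exact this
      en_int := fun t ht => by
        have := hS.en_int t ht
        rwa [integrableOn_univ] at this
      en := fun t ht => by
        have := hS.en t ht
        rwa [Measure.restrict_univ] at this
      dv_int := fun t ht => by
        have : (fun x => dv (u t) x ^ 2) = fun _ => (0 : ℝ) := by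
          funext x; rw [hdv t ht x]; norm_num
        rw [this]; exact integrable_zero _ _ _
      dvb := fun t ht => by
        have : (fun x => dv (u t) x ^ 2) = fun _ => (0 : ℝ) := by
          funext x; rw [hdv t ht x]; norm_num
        rw [this]; simp }

/-- The labels of the particles which, at some time in `(t₁, t₂]`, are close to a point at which
some derivative of the vorticity is large. -/
def Lab (K : ℕ → ℝ) (r : ℝ) (u : ℝ → V → V) (t₁ t₂ : ℝ) : Set V :=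
  {a | ∃ ξ : ℝ → V, ξ t₁ = a ∧ Traj u t₁ t₂ ξ ∧ ∃ t ∈ Ioc t₁ t₂, ∃ y ∈ ball (ξ t) (r / 32),
    ∃ n, K n < r ^ (2 * n + 4) * ST n (u t) y}

lemma slice_smooth {T : ℝ} {u : ℝ → V → V}
    (hu : ContDiffOn ℝ ∞ (fun z : ℝ × V => u z.1 z.2) (Ioo 0 T ×ˢ univ)) {t : ℝ}
    (ht : t ∈ Ioo 0 T) : ContDiff ℝ ∞ (u t) := by
  rw [← contDiffOn_univ]
  exact hu.comp (f := fun x : V => (t, x)) (by fun_prop) (fun x _ => ⟨ht, mem_univ _⟩)

/-- Solutions in the whole space. -/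
theorem wholeT : ∃ C : ℝ, 0 < C ∧ ∃ K : ℕ → ℝ, (∀ n, 0 < K n) ∧
    ∀ (T E : ℝ) (u : ℝ → V → V) (p : ℝ → V → ℝ), 0 ≤ E → OSol 1 T E univ u p →
    ∀ c d M L : ℝ, 0 ≤ c → d ≤ T → (∀ t ∈ Ioo c d, ∀ x, ‖u t x‖ ≤ M) →
    (∀ t ∈ Ioo c d, ∀ x i j, |pd j (fun y => u t y i) x| ≤ L) →
    ∀ r t₁ t₂ : ℝ, 0 < r → r ^ 2 < t₁ → c < t₁ → t₁ < t₂ → t₂ < d →
      volume (Lab K r u t₁ t₂) ≤ ENNReal.ofReal (C * r ^ 2) *
        ∫⁻ τ in Ioc (t₁ - r ^ 2) t₂, ∫⁻ y, ENNReal.ofReal (gsq (u τ) y) := by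
  obtain ⟨C, hC, m, hm32, K, hK, H⟩ := fixL
  have hm : 0 < m := by omega
  refine ⟨m * C, by positivity, K, hK, ?_⟩
  intro T E u p hE hS c d M L hc hd hM hL r t₁ t₂ hr hr1 hc1 h12 h2d
  have hLS := osol_lsol hS
  have hr2 : 0 < r ^ 2 := by positivity
  obtain ⟨F, hF1, hF2, hF3⟩ := flowF hS.smooth_u (fun t ht x => hS.divfree t ht x (mem_univ x)) hc
    hd hM hL hc1 h12 h2d
  have hB : ∀ s ∈ Icc t₁ t₂, ∃ B : Set V, MeasurableSet B ∧
      volume B ≤ ENNReal.ofReal (C * r ^ 2) *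
        ∫⁻ τ in Ioo (s - r ^ 2) s, ∫⁻ y, ENNReal.ofReal (gsq (u τ) y) ∧
      ∀ x, x ∉ B → (∀ y ∈ ball x (r / 16), ∀ n, r ^ (2 * n + 4) * ST n (u s) y ≤ K n) ∧
          ∀ h : ℝ, 0 < h → h * m ≤ r ^ 2 → ∀ ξ : ℝ → V, ContinuousOn ξ (Icc (s - h) s) →
            ξ s = x →
            (∀ τ ∈ Ioo (s - h) s, ∃ w, HasDerivAt ξ w τ ∧ (ξ τ ∈ (univ : Set V) → w = u τ (ξ τ))) →
            ∀ τ ∈ Ioo (s - h) s, ∀ y ∈ ball (ξ τ) (r / 32), y ∈ (univ : Set V) ∧ ∀ n,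
              r ^ (2 * n + 4) * ST n (u τ) y ≤ K n := by
    intro s hs
    obtain ⟨B, q1, q2, q3⟩ := H T 0 E univ u p le_rfl hE hLS r s hr (hr1.trans_le hs.1)
      (hs.2.trans_lt (h2d.trans_le hd)) (by rw [mul_zero, zero_mul]; exact zero_le_one)
    rw [Measure.restrict_univ] at q2
    exact ⟨B, q1, q2, fun x hx => q3 x hx (subset_univ _)⟩
  choose! B hBm hBv hBx using hB
  have hL0 : 0 ≤ L := (abs_nonneg _).trans (hL t₁ ⟨hc1, h12.trans h2d⟩ 0 0 0)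
  have hlip : ∀ t ∈ Ioo t₁ t₂, LipschitzWith (3 * L).toNNReal (u t) := by
    intro t ht
    have htT : t ∈ Ioo 0 T := ⟨by linarith [ht.1], by linarith [ht.2]⟩
    exact lip_of_pd hL0 ((slice_smooth hS.smooth_u htT).differentiable (by norm_cast))
      (hL t ⟨by linarith [ht.1], by linarith [ht.2]⟩)
  have hm0 : (0 : ℝ) < m := by exact_mod_cast hm
  have hh : 0 < r ^ 2 / m := by positivity
  have hsk : ∀ k ∈ Finset.range (⌊(t₂ - t₁) / (r ^ 2 / m)⌋₊ + 1),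
      t₂ - k * (r ^ 2 / m) ∈ Icc t₁ t₂ := by
    intro k hk
    rw [Finset.mem_range, Nat.lt_succ_iff] at hk
    have h3 : (k : ℝ) ≤ (t₂ - t₁) / (r ^ 2 / m) := by
      refine le_trans (by exact_mod_cast hk) (Nat.floor_le (div_nonneg (by linarith) hh.le))
    rw [le_div_iff₀ hh] at h3
    have : 0 ≤ (k : ℝ) * (r ^ 2 / m) := by positivity
    exact ⟨by linarith, by linarith⟩
  rw [show (m : ℝ) * C * r ^ 2 = m * (C * r ^ 2) by ring]
  refine union_bd hm h12 (fun k => F (t₂ - k * (r ^ 2 / m)) ⁻¹' B (t₂ - k * (r ^ 2 / m))) ?_ ?_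
  · rintro a ⟨ξ, hξa, hξ, t, ht, y, hy, n, hn⟩
    obtain ⟨k, hk, hk1, hk2⟩ := win_of hh ht.1 ht.2
    have hs := hsk k hk
    refine mem_biUnion (x := k) hk ?_
    show F (t₂ - k * (r ^ 2 / m)) a ∈ B (t₂ - k * (r ^ 2 / m))
    have hFa : ξ (t₂ - k * (r ^ 2 / m)) = F (t₂ - k * (r ^ 2 / m)) a :=
      traj_unique hlip hξ (hF2 a) (by rw [hξa, hF1]) _ hs
    rw [← hFa]
    by_contra hnB
    obtain ⟨g1, g2⟩ := hBx _ hs _ hnB
    have := (win_pt hr hm (K := K) (O := univ) (u := u) (w := u) (fun _ _ _ _ => rfl)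
      (subset_univ _) g1 g2 hξ rfl hs.2 ht.1 hk1 hk2 y hy).2 n
    linarith
  · intro k hk
    have hs := hsk k hk
    obtain ⟨c1, c2⟩ := hF3 _ hs
    have h3 : volume (F (t₂ - k * (r ^ 2 / m)) ⁻¹' B (t₂ - k * (r ^ 2 / m)))
        ≤ volume (B (t₂ - k * (r ^ 2 / m))) := by
      rw [← Measure.map_apply c1.measurable (hBm _ hs)]
      exact c2 _
    exact h3.trans (hBv _ hs)

end Pool.Agent.TH305.LG
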