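import Pool.Agent.TH305.LG.Flow

/-!
Particle paths (helper305): windows in time.
-/

set_option autoImplicit false

open MeasureTheory Set Metric Filter Topology
open scoped ContDiff ENNReal NNReal

namespace Pool.Agent.TH305.LG

open H459R3.NS W221.NS Pool.Agent.TH305.DR Pool.Agent.TH305.LW

/-- Telescoping of intervals. -/
lemma tele (D : ℝ → ℝ≥0∞) {s : ℕ → ℝ} (hs : Antitone s) (n : ℕ) :
    ∑ k ∈ Finset.range n, ∫⁻ τ in Ioc (s (k + 1)) (s k), D τ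
      = ∫⁻ τ in Ioc (s n) (s 0), D τ := by
  induction n with
  | zero => simp
  | succ n ih =>
    have h1 : Ioc (s (n + 1)) (s n) ∪ Ioc (s n) (s 0) = Ioc (s (n + 1)) (s 0) :=
      Ioc_union_Ioc_eq_Ioc (hs (Nat.le_succ n)) (hs (Nat.zero_le n))
    have h2 : Disjoint (Ioc (s (n + 1)) (s n)) (Ioc (s n) (s 0)) := by
      rw [Set.disjoint_left]
      intro x hx hx'
      exact absurd hx.2 (not_le.2 hx'.1)
    rw [Finset.sum_range_succ, ih, ← h1, lintegral_union measurableSet_Ioc h2, add_comm]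

/-- Overlapping windows. -/
lemma windows (D : ℝ → ℝ≥0∞) (t₂ : ℝ) {h : ℝ} (hh : 0 ≤ h) (m N : ℕ) :
    ∑ k ∈ Finset.range (N + 1), ∫⁻ τ in Ioo (t₂ - k * h - m * h) (t₂ - k * h), D τ
      ≤ m * ∫⁻ τ in Ioc (t₂ - (N + m) * h) t₂, D τ := by
  obtain ⟨s, hs⟩ : ∃ s : ℕ → ℝ, s = fun k : ℕ => t₂ - (k : ℝ) * h := ⟨_, rfl⟩
  have hsa : Antitone s := by
    rw [hs]
    intro a b hab
    have : (a : ℝ) ≤ b := by exact_mod_cast hab
    show t₂ - b * h ≤ t₂ - a * h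
    have := mul_le_mul_of_nonneg_right this hh
    linarith
  have h1 : ∀ k ∈ Finset.range (N + 1), ∫⁻ τ in Ioo (t₂ - k * h - m * h) (t₂ - k * h), D τ
      ≤ ∑ j ∈ Finset.range m, ∫⁻ τ in Ioc (s (k + j + 1)) (s (k + j)), D τ := by
    intro k _
    have h2 := tele D (s := fun j => s (k + j)) (fun a b hab => hsa (by omega)) m
    simp only [← add_assoc, add_zero] at h2
    rw [h2]
    refine lintegral_mono_set ?_
    have h3 : t₂ - k * h - m * h = s (k + m) := by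
      rw [hs]
      push_cast
      ring
    have h4 : t₂ - k * h = s k := by rw [hs]
    rw [h3, h4]
    exact Ioo_subset_Ioc_self
  refine (Finset.sum_le_sum h1).trans ?_
  rw [Finset.sum_comm]
  have h5 : ∀ j ∈ Finset.range m, ∑ k ∈ Finset.range (N + 1),
      ∫⁻ τ in Ioc (s (k + j + 1)) (s (k + j)), D τ ≤ ∫⁻ τ in Ioc (t₂ - (N + m) * h) t₂, D τ := by
    intro j hj
    have hj' := Finset.mem_range.1 hj
    have h2 := tele D (s := fun k => s (k + j)) (fun a b hab => hsa (by omega)) (N + 1)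
    have h6 : ∑ k ∈ Finset.range (N + 1), ∫⁻ τ in Ioc (s (k + j + 1)) (s (k + j)), D τ
        = ∑ k ∈ Finset.range (N + 1), ∫⁻ τ in Ioc (s (k + 1 + j)) (s (k + j)), D τ :=
      Finset.sum_congr rfl fun k _ => by rw [show k + j + 1 = k + 1 + j by ring]
    rw [h6, h2]
    refine lintegral_mono_set (Ioc_subset_Ioc ?_ ?_)
    · have h7 : t₂ - (N + m) * h = s (N + m) := by
        rw [hs]
        push_cast
        ring
      rw [h7]
      exact hsa (by omega)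
    · show s (0 + j) ≤ t₂
      rw [hs]
      have : 0 ≤ ((0 + j : ℕ) : ℝ) * h := by positivity
      show t₂ - ((0 + j : ℕ) : ℝ) * h ≤ t₂
      linarith
  refine (Finset.sum_le_sum h5).trans ?_
  rw [Finset.sum_const, Finset.card_range, nsmul_eq_mul]

/-- The window of a time. -/
lemma win_of {t₁ t₂ h t : ℝ} (hh : 0 < h) (h1 : t₁ < t) (h2 : t ≤ t₂) :
    ∃ k : ℕ, k ∈ Finset.range (⌊(t₂ - t₁) / h⌋₊ + 1) ∧ t ≤ t₂ - k * h ∧ t₂ - k * h - h < t := by
  refine ⟨⌊(t₂ - t) / h⌋₊, ?_, ?_, ?_⟩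
  · rw [Finset.mem_range, Nat.lt_succ_iff]
    apply Nat.floor_mono
    gcongr
  · have h3 : (⌊(t₂ - t) / h⌋₊ : ℝ) ≤ (t₂ - t) / h :=
      Nat.floor_le (div_nonneg (by linarith) hh.le)
    rw [le_div_iff₀ hh] at h3
    linarith
  · have h3 : (t₂ - t) / h < (⌊(t₂ - t) / h⌋₊ : ℝ) + 1 := Nat.lt_floor_add_one _
    rw [div_lt_iff₀ hh] at h3
    linarith

/-- The union of the windows. -/
theorem union_bd {r t₁ t₂ c : ℝ} {m : ℕ} (hm : 0 < m) (h12 : t₁ < t₂)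
    {D : ℝ → ℝ≥0∞} {S : Set V} (P : ℕ → Set V)
    (hS : S ⊆ ⋃ k ∈ Finset.range (⌊(t₂ - t₁) / (r ^ 2 / m)⌋₊ + 1), P k)
    (hP : ∀ k ∈ Finset.range (⌊(t₂ - t₁) / (r ^ 2 / m)⌋₊ + 1),
      volume (P k) ≤ ENNReal.ofReal c *
        ∫⁻ τ in Ioo (t₂ - k * (r ^ 2 / m) - r ^ 2) (t₂ - k * (r ^ 2 / m)), D τ) :
    volume S ≤ ENNReal.ofReal (m * c) * ∫⁻ τ in Ioc (t₁ - r ^ 2) t₂, D τ := by
  have hm0 : (0 : ℝ) < m := by exact_mod_cast hm
  have hh : 0 ≤ r ^ 2 / m := by positivity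
  have hmh : (m : ℝ) * (r ^ 2 / m) = r ^ 2 := by field_simp
  refine (measure_mono hS).trans ((measure_biUnion_finset_le _ _).trans ?_)
  refine (Finset.sum_le_sum hP).trans ?_
  rw [← Finset.mul_sum]
  have h1 := windows D t₂ hh m ⌊(t₂ - t₁) / (r ^ 2 / m)⌋₊
  rw [hmh] at h1
  refine (mul_le_mul_right h1 _).trans ?_
  rw [← mul_assoc, ENNReal.ofReal_mul hm0.le, ENNReal.ofReal_natCast, mul_comm (ENNReal.ofReal c)]
  refine mul_le_mul_right (lintegral_mono_set (Ioc_subset_Ioc ?_ le_rfl)) _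
  have h3 : (⌊(t₂ - t₁) / (r ^ 2 / m)⌋₊ : ℝ) * (r ^ 2 / m) ≤ t₂ - t₁ := by
    rcases eq_or_lt_of_le hh with h | h
    · rw [← h, mul_zero]
      linarith
    · have := Nat.floor_le (a := (t₂ - t₁) / (r ^ 2 / m)) (div_nonneg (by linarith) hh)
      rwa [le_div_iff₀ h] at this
  rw [add_mul, hmh]
  linarith

end Pool.Agent.TH305.LG
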